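import Mathlib

/-!
# A quasiconformal map of the plane with axis-preserving or axis-switching differential
(MP_1cbc6c_an): definitions and task statements (`S_XX : Prop`).
-/

set_option autoImplicit false

open MeasureTheory Filter Topology Set

namespace Pool.Agent.H895R3.QC

/-- 2x2 matrices (a, b; c, d), stored row by row -/
abbrev V := ℝ × ℝ × ℝ × ℝ

/-- the linear map with matrix (a, b; c, d) on the plane -/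
def lin (F : V) (z : ℂ) : ℂ :=
  ⟨F.1 * z.re + F.2.1 * z.im, F.2.2.1 * z.re + F.2.2.2 * z.im⟩

def vdet (F : V) : ℝ := F.1 * F.2.2.2 - F.2.1 * F.2.2.1

def vsq (F : V) : ℝ := F.1 ^ 2 + F.2.1 ^ 2 + F.2.2.1 ^ 2 + F.2.2.2 ^ 2

/-- norm at most `M`, determinant at least `m` -/
def Ok (M m : ℝ) (F : V) : Prop := vsq F ≤ M ^ 2 ∧ m ≤ vdet F

/-- diagonal or antidiagonal, determinant positive, dilatation at most 6.1 -/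
def IsL (F : V) : Prop :=
  (F.2.1 = 0 ∧ F.2.2.1 = 0 ∧ 0 < F.1 ∧ 0 < F.2.2.2 ∧
    F.1 ≤ 6.1 * F.2.2.2 ∧ F.2.2.2 ≤ 6.1 * F.1) ∨
  (F.1 = 0 ∧ F.2.2.2 = 0 ∧ F.2.1 < 0 ∧ 0 < F.2.2.1 ∧
    -F.2.1 ≤ 6.1 * F.2.2.1 ∧ F.2.2.1 ≤ 6.1 * (-F.2.1))

/-- `F + t x ⊗ n` -/
def rk (F : V) (t : ℝ) (x n : ℂ) : V :=
  (F.1 + t * (x.re * n.re), F.2.1 + t * (x.re * n.im),
    F.2.2.1 + t * (x.im * n.re), F.2.2.2 + t * (x.im * n.im))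

def dot (n z : ℂ) : ℝ := n.re * z.re + n.im * z.im

def perp (n : ℂ) : ℂ := ⟨-n.im, n.re⟩

/-- the roof over the unit square -/
noncomputable def roof (l u v : ℝ) : ℝ :=
  max 0 (min (min ((1 - l) * u) (l * (1 - u))) (min (8 * v) (8 * (1 - v))))

/-- the elementary map: `F z` plus a roof in the direction `x` -/
noncomputable def psi (F : V) (x n : ℂ) (e l : ℝ) (z : ℂ) : ℂ :=
  lin F z + ((roof l (dot n z) (e * dot (perp n) z) : ℝ) : ℂ) * x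

/-- `f` is affine near `z` with a matrix from `U` -/
def LocU (U : Set V) (f : ℂ → ℂ) (z : ℂ) : Prop :=
  ∃ A ∈ U, ∃ c : ℂ, ∀ᶠ w in 𝓝 z, f w = lin A w + c

/-- `f` is affine near `z` with a diagonal or antidiagonal matrix -/
def LocL (f : ℂ → ℂ) (z : ℂ) : Prop :=
  ∃ B : V, IsL B ∧ ∃ c : ℂ, ∀ᶠ w in 𝓝 z, f w = lin B w + c

/-- every matrix of `U` splits: `F = l B + (1-l) G`, `B` diagonal or antidiagonal, `G ∈ U`,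
`B - G = x ⊗ n` -/
def SplitP (U : Set V) (M m : ℝ) : Prop :=
  IsOpen U ∧ (∀ F ∈ U, Ok M m F) ∧
  ∀ F ∈ U, ∃ (l : ℝ) (x n : ℂ), 1 / 8 ≤ l ∧ l ≤ 7 / 8 ∧ n ≠ 0 ∧
    IsL (rk F (1 - l) x n) ∧ Ok M m (rk F (1 - l) x n) ∧ rk F (-l) x n ∈ U

/-- the one-cell property of a matrix `F` -/
def CellP (U : Set V) (M K : ℝ) (F : V) : Prop :=
  ∃ (C : Set ℂ) (ψ : ℂ → ℂ) (R O : Set ℂ) (D : ℝ),
    IsCompact C ∧ Convex ℝ C ∧ (interior C).Nonempty ∧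
    (∀ z, z ∉ C → ψ z = lin F z) ∧
    (∀ z w, ‖ψ z - ψ w‖ ≤ M * ‖z - w‖) ∧ (∀ z w, ‖z - w‖ ≤ K * ‖ψ z - ψ w‖) ∧
    Function.Surjective ψ ∧ (∀ z, ‖ψ z - lin F z‖ ≤ D) ∧
    IsOpen R ∧ IsOpen O ∧ R ⊆ C ∧ O ⊆ C ∧ Disjoint R O ∧
    (∀ z ∈ R, LocU U ψ z) ∧ (∀ z ∈ O, LocL ψ z) ∧
    volume (C \ (R ∪ O)) = 0 ∧ volume R ≤ ENNReal.ofReal (15 / 16) * volume C

/-- the cell `q + r C` -/
def cell (C : Set ℂ) (q : ℂ) (r : ℝ) : Set ℂ := (fun z : ℂ => q + (r : ℂ) * z) '' C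

/-- an intermediate map `f` with inverse `g`; `W` = unfinished open set, `O` = finished open set -/
def State (U : Set V) (M K : ℝ) (F0 : V) (Q : Set ℂ) (f g : ℂ → ℂ) (W O : Set ℂ) : Prop :=
  (∀ z w, ‖f z - f w‖ ≤ M * ‖z - w‖) ∧ (∀ z w, ‖g z - g w‖ ≤ K * ‖z - w‖) ∧
  (∀ z, g (f z) = z) ∧ (∀ z, f (g z) = z) ∧
  (∀ z, z ∉ Q → f z = lin F0 z) ∧
  IsOpen W ∧ W ⊆ Q ∧ (∀ z ∈ W, LocU U f z) ∧
  IsOpen O ∧ (∀ z ∈ O, LocL f z) ∧ Disjoint O W ∧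
  volume (Q \ (O ∪ W)) = 0

/-- the improvement step -/
def StepP (U : Set V) (M K : ℝ) (F0 : V) (Q : Set ℂ) : Prop :=
  ∀ (f g : ℂ → ℂ) (W O : Set ℂ), State U M K F0 Q f g W O → ∀ ε : ℝ, 0 < ε →
    ∃ (f' g' : ℂ → ℂ) (W' O' : Set ℂ), State U M K F0 Q f' g' W' O' ∧
      (∀ z, ‖f' z - f z‖ ≤ ε) ∧ (∀ z, z ∉ W → f' z = f z) ∧ O ⊆ O' ∧ W' ⊆ W ∧
      volume W' ≤ ENNReal.ofReal (15 / 16) * volume W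

/-- a finished map on `Q` -/
def SolP (M K : ℝ) (F0 : V) (Q : Set ℂ) : Prop :=
  ∃ (f g : ℂ → ℂ),
    (∀ z w, ‖f z - f w‖ ≤ M * ‖z - w‖) ∧ (∀ z w, ‖g z - g w‖ ≤ K * ‖z - w‖) ∧
    (∀ z, g (f z) = z) ∧ (∀ z, f (g z) = z) ∧
    (∀ z, z ∉ Q → f z = lin F0 z) ∧
    (∀ᵐ z ∂(volume.restrict Q), LocL f z)

/-! ### unit square regions -/

def Sq : Set ℂ := {w | 0 ≤ w.re ∧ w.re ≤ 1 ∧ 0 ≤ w.im ∧ w.im ≤ 1}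

def R1 (l : ℝ) : Set ℂ :=
  {w | 0 < w.re ∧ (1 - l) * w.re < l * (1 - w.re) ∧ (1 - l) * w.re < 8 * w.im ∧
    (1 - l) * w.re < 8 * (1 - w.im)}

def R2 (l : ℝ) : Set ℂ :=
  {w | w.re < 1 ∧ l * (1 - w.re) < (1 - l) * w.re ∧ l * (1 - w.re) < 8 * w.im ∧
    l * (1 - w.re) < 8 * (1 - w.im)}

def R3 (l : ℝ) : Set ℂ :=
  {w | 0 < w.im ∧ 8 * w.im < (1 - l) * w.re ∧ 8 * w.im < l * (1 - w.re) ∧
    8 * w.im < 8 * (1 - w.im)}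

def R4 (l : ℝ) : Set ℂ :=
  {w | w.im < 1 ∧ 8 * (1 - w.im) < (1 - l) * w.re ∧ 8 * (1 - w.im) < l * (1 - w.re) ∧
    8 * (1 - w.im) < 8 * w.im}

/-! ### tasks -/

/-- the first quarter of the set `U` -/
def U1 (F : V) : Prop :=
  ∃ t p q r s : ℝ, 1 / 2 < t ∧ t < 2 ∧
    199 / 200 < p ∧ p < 201 / 200 ∧ 199 / 200 < q ∧ q < 201 / 200 ∧
    199 / 200 < r ∧ r < 201 / 200 ∧ 199 / 200 < s ∧ s < 201 / 200 ∧ p * s = q * r ∧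
    F = (p * (6 + 6 * t), -(q * (12 - 3 * t)), r * (8 - 2 * t), s * (9 - t))

/-- the symmetry swapping diagonal and antidiagonal matrices -/
def rho (F : V) : V := (-F.2.1, -F.2.2.2, F.1, F.2.2.1)

/-- the open set of admissible matrices -/
def UU : Set V := {F | U1 F ∨ U1 (rho F) ∨ U1 (rho (rho F)) ∨ U1 (rho (rho (rho F)))}

/-- the boundary matrix (6, -12; 8, 9) / ... belongs to `UU` -/
def P1 : V := (6, -12, 8, 9)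

def S_OPN : Prop := IsOpen {F : V | U1 F}

def S_ALG : Prop := S_OPN → SplitP UU 45 100 ∧ P1 ∈ UU

def S_LIN : Prop :=
  (∀ (F : V) (t : ℝ) (x n z : ℂ), lin (rk F t x n) z = lin F z + ((t * dot n z : ℝ) : ℂ) * x) ∧
  (∀ (F : V) (z w : ℂ), lin F (z + w) = lin F z + lin F w) ∧
  (∀ (F : V) (z w : ℂ), lin F (z - w) = lin F z - lin F w) ∧
  (∀ (F : V) (r : ℝ) (z : ℂ), lin F ((r : ℂ) * z) = (r : ℂ) * lin F z) ∧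
  (∀ (F : V), Continuous (lin F)) ∧
  (∀ (M m : ℝ) (F : V), 0 < M → 0 < m → Ok M m F →
    ∀ z, ‖lin F z‖ ≤ M * ‖z‖ ∧ ‖z‖ ≤ M / m * ‖lin F z‖) ∧
  (∀ (F : V), vdet F ≠ 0 → Function.Bijective (lin F)) ∧
  (∀ (M m : ℝ) (F : V) (t s : ℝ) (x n : ℂ), 0 ≤ s → s ≤ 1 → Ok M m F →
    Ok M m (rk F t x n) → Ok M m (rk F (s * t) x n))

def S_MV : Prop :=
  ∀ l u v u' v' : ℝ, 0 ≤ l → l ≤ 1 →
    roof l u' v' - roof l u v ≤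
      max 0 (max (max ((1 - l) * (u' - u)) (-l * (u' - u))) (max (8 * (v' - v)) (-(8 * (v' - v))))) ∧
    min 0 (min (min ((1 - l) * (u' - u)) (-l * (u' - u))) (min (8 * (v' - v)) (-(8 * (v' - v))))) ≤
      roof l u' v' - roof l u v

def S_BIL : Prop := S_LIN → S_MV →
  ∀ (M m : ℝ) (F : V) (x n : ℂ) (e l : ℝ), 0 < M → 0 < m → 0 ≤ l → l ≤ 1 →
    Ok M m F → Ok M m (rk F (1 - l) x n) → Ok M m (rk F (-l) x n) →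
    Ok M m (rk F (8 * e) x (perp n)) → Ok M m (rk F (-(8 * e)) x (perp n)) →
    ∀ z w, ‖psi F x n e l z - psi F x n e l w‖ ≤ M * ‖z - w‖ ∧
      ‖z - w‖ ≤ M / m * ‖psi F x n e l z - psi F x n e l w‖

def S_SRJ : Prop := S_LIN →
  ∀ (F : V) (x n : ℂ) (e l : ℝ), 0 ≤ l → l ≤ 1 → vdet F ≠ 0 →
    Function.Surjective (psi F x n e l)

def S_UNA : Prop :=
  ∀ l : ℝ, 1 / 8 ≤ l → l ≤ 7 / 8 →
    IsOpen (R1 l) ∧ IsOpen (R2 l) ∧ IsOpen (R3 l) ∧ IsOpen (R4 l) ∧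
    R1 l ⊆ Sq ∧ R2 l ⊆ Sq ∧ R3 l ⊆ Sq ∧ R4 l ⊆ Sq ∧
    Disjoint (R2 l ∪ R3 l ∪ R4 l) (R1 l) ∧
    (∀ w ∈ R1 l, roof l w.re w.im = (1 - l) * w.re) ∧
    (∀ w ∈ R2 l, roof l w.re w.im = l * (1 - w.re)) ∧
    (∀ w ∈ R3 l, roof l w.re w.im = 8 * w.im) ∧
    (∀ w ∈ R4 l, roof l w.re w.im = 8 * (1 - w.im)) ∧
    (∀ w, w ∉ Sq → roof l w.re w.im = 0) ∧
    (∀ u v : ℝ, 0 ≤ roof l u v ∧ roof l u v ≤ 1)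

def S_UNB : Prop :=
  (∀ l : ℝ, 1 / 8 ≤ l → l ≤ 7 / 8 →
    volume (Sq \ (R2 l ∪ R3 l ∪ R4 l ∪ R1 l)) = 0 ∧
    volume (R2 l ∪ R3 l ∪ R4 l) ≤ ENNReal.ofReal (15 / 16) * volume Sq) ∧
  IsCompact Sq ∧ Convex ℝ Sq ∧ (interior Sq).Nonempty

/-- transfer from the unit square to the cell by the linear map `(n·z, e n^⊥·z)` -/
def S_CEL : Prop := S_LIN → S_BIL → S_MV → S_SRJ → S_UNA → S_UNB →
  ∀ (U : Set V) (M m : ℝ), 0 < M → 0 < m → SplitP U M m →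
    ∀ F ∈ U, CellP U M (M / m) F

def S_VIT : Prop :=
  ∀ (C : Set ℂ), IsCompact C → (interior C).Nonempty → ∀ (W : Set ℂ), IsOpen W →
    ∀ ρ : ℝ, 0 < ρ → ∃ (J : Set ℕ) (q : ℕ → ℂ) (r : ℕ → ℝ),
      (∀ j ∈ J, 0 < r j ∧ r j ≤ ρ ∧ cell C (q j) (r j) ⊆ W) ∧
      (∀ i ∈ J, ∀ j ∈ J, i ≠ j → Disjoint (cell C (q i) (r i)) (cell C (q j) (r j))) ∧
      volume (W \ ⋃ j ∈ J, cell C (q j) (r j)) = 0

def S_PCS : Prop :=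
  ∀ (U : Set V) (f : ℂ → ℂ) (W : Set ℂ), IsOpen W → (∀ z ∈ W, LocU U f z) →
    ∃ (W' : ℕ → Set ℂ) (A : ℕ → V) (c : ℕ → ℂ),
      (∀ k, IsOpen (W' k)) ∧ (∀ i j, i ≠ j → Disjoint (W' i) (W' j)) ∧ (⋃ k, W' k) = W ∧
      ∀ k, (W' k).Nonempty → A k ∈ U ∧ ∀ z ∈ W' k, f z = lin (A k) z + c k

/-- simultaneous covering of all pieces; `C A`, `ρ A` = cell shape and size bound for the matrix `A` -/
def CovC : Prop :=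
  ∀ (U : Set V) (f : ℂ → ℂ) (W : Set ℂ), IsOpen W → (∀ z ∈ W, LocU U f z) →
    ∀ (C : V → Set ℂ) (ρ : V → ℝ), (∀ A ∈ U, IsCompact (C A) ∧ (interior (C A)).Nonempty ∧ 0 < ρ A) →
    ∃ (J : Set ℕ) (q : ℕ → ℂ) (r : ℕ → ℝ) (A : ℕ → V) (c : ℕ → ℂ),
      (∀ j ∈ J, A j ∈ U ∧ 0 < r j ∧ r j ≤ ρ (A j) ∧ cell (C (A j)) (q j) (r j) ⊆ W ∧
        ∀ z ∈ cell (C (A j)) (q j) (r j), f z = lin (A j) z + c j) ∧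
      (∀ i ∈ J, ∀ j ∈ J, i ≠ j →
        Disjoint (cell (C (A i)) (q i) (r i)) (cell (C (A j)) (q j) (r j))) ∧
      volume (W \ ⋃ j ∈ J, cell (C (A j)) (q j) (r j)) = 0

def S_COV : Prop := S_VIT → S_PCS → CovC

def S_GLU : Prop :=
  ∀ (M : ℝ) (f f' : ℂ → ℂ) (J : Set ℕ) (C : ℕ → Set ℂ), 0 ≤ M →
    (∀ j ∈ J, IsClosed (C j) ∧ Convex ℝ (C j)) →
    (∀ i ∈ J, ∀ j ∈ J, i ≠ j → Disjoint (C i) (C j)) →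
    (∀ z w, ‖f z - f w‖ ≤ M * ‖z - w‖) →
    (∀ j ∈ J, ∀ z ∈ C j, ∀ w ∈ C j, ‖f' z - f' w‖ ≤ M * ‖z - w‖) →
    (∀ z, (∀ j ∈ J, z ∉ C j) → f' z = f z) →
    (∀ j ∈ J, ∀ z ∈ frontier (C j), f' z = f z) →
    ∀ z w, ‖f' z - f' w‖ ≤ M * ‖z - w‖

/-- gluing of homeomorphisms -/
def GluC : Prop :=
  ∀ (M m K : ℝ) (f g : ℂ → ℂ) (J : Set ℕ) (C : ℕ → Set ℂ) (A : ℕ → V) (c : ℕ → ℂ) (φ : ℕ → ℂ → ℂ),
    0 < M → 0 < m → 0 ≤ K →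
    (∀ z w, ‖f z - f w‖ ≤ M * ‖z - w‖) → (∀ z w, ‖g z - g w‖ ≤ K * ‖z - w‖) →
    (∀ z, g (f z) = z) → (∀ z, f (g z) = z) →
    (∀ j ∈ J, IsCompact (C j) ∧ Convex ℝ (C j) ∧ vdet (A j) ≠ 0 ∧
      (∀ z ∈ C j, f z = lin (A j) z + c j) ∧
      (∀ z, z ∉ C j → φ j z = lin (A j) z + c j) ∧
      (∀ z w, ‖φ j z - φ j w‖ ≤ M * ‖z - w‖) ∧ (∀ z w, ‖z - w‖ ≤ K * ‖φ j z - φ j w‖) ∧
      Function.Surjective (φ j)) →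
    (∀ i ∈ J, ∀ j ∈ J, i ≠ j → Disjoint (C i) (C j)) →
    ∃ f' g' : ℂ → ℂ,
      (∀ z w, ‖f' z - f' w‖ ≤ M * ‖z - w‖) ∧ (∀ z w, ‖g' z - g' w‖ ≤ K * ‖z - w‖) ∧
      (∀ z, g' (f' z) = z) ∧ (∀ z, f' (g' z) = z) ∧
      (∀ z, (∀ j ∈ J, z ∉ C j) → f' z = f z) ∧ (∀ j ∈ J, ∀ z ∈ C j, f' z = φ j z)

def S_GL2 : Prop := S_LIN → S_GLU → GluC

/-- properties of the scaled elementary map `lin F q + r ψ((z - q)/r) + c` on `cell C q r` -/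
def ScaC : Prop :=
  ∀ (U : Set V) (M K : ℝ) (F : V) (C : Set ℂ) (ψ : ℂ → ℂ) (R O : Set ℂ) (D : ℝ) (q c : ℂ) (r : ℝ),
    0 < r → 0 ≤ K →
    IsCompact C → Convex ℝ C →
    (∀ z, z ∉ C → ψ z = lin F z) →
    (∀ z w, ‖ψ z - ψ w‖ ≤ M * ‖z - w‖) → (∀ z w, ‖z - w‖ ≤ K * ‖ψ z - ψ w‖) →
    Function.Surjective ψ → (∀ z, ‖ψ z - lin F z‖ ≤ D) →
    IsOpen R → IsOpen O → R ⊆ C → O ⊆ C → Disjoint R O →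
    (∀ z ∈ R, LocU U ψ z) → (∀ z ∈ O, LocL ψ z) →
    volume (C \ (R ∪ O)) = 0 → volume R ≤ ENNReal.ofReal (15 / 16) * volume C →
    IsCompact (cell C q r) ∧ Convex ℝ (cell C q r) ∧
    ∃ φ : ℂ → ℂ,
      (∀ z, z ∉ cell C q r → φ z = lin F z + c) ∧
      (∀ z w, ‖φ z - φ w‖ ≤ M * ‖z - w‖) ∧ (∀ z w, ‖z - w‖ ≤ K * ‖φ z - φ w‖) ∧
      Function.Surjective φ ∧ (∀ z, ‖φ z - (lin F z + c)‖ ≤ r * D) ∧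
      IsOpen (cell R q r) ∧ IsOpen (cell O q r) ∧ cell R q r ⊆ cell C q r ∧
      cell O q r ⊆ cell C q r ∧ Disjoint (cell R q r) (cell O q r) ∧
      (∀ z ∈ cell R q r, LocU U φ z) ∧ (∀ z ∈ cell O q r, LocL φ z) ∧
      volume (cell C q r \ (cell R q r ∪ cell O q r)) = 0 ∧
      volume (cell R q r) ≤ ENNReal.ofReal (15 / 16) * volume (cell C q r)

def S_SCA : Prop := S_LIN → ScaC

def S_STP : Prop := S_LIN → CovC → GluC → ScaC →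
  ∀ (U : Set V) (M m : ℝ) (F0 : V) (Q : Set ℂ), 0 < M → 0 < m → (∀ F ∈ U, Ok M m F) →
    (∀ F ∈ U, CellP U M (M / m) F) → IsOpen Q → StepP U M (M / m) F0 Q

def S_LIM : Prop := S_LIN →
  ∀ (U : Set V) (M m : ℝ) (F0 : V) (Q : Set ℂ), 0 < M → 0 < m → (∀ F ∈ U, Ok M m F) →
    F0 ∈ U → IsOpen Q → volume Q ≠ ⊤ → StepP U M (M / m) F0 Q → SolP M (M / m) F0 Q

/-- the open unit square -/
def Qo : Set ℂ := {w | 0 < w.re ∧ w.re < 1 ∧ 0 < w.im ∧ w.im < 1}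

/-- from the unit square to the plane -/
def S_PLN : Prop := S_LIN → S_VIT → GluC →
  ∀ (M m : ℝ) (F0 : V), 0 < M → 0 < m → Ok M m F0 → SolP M (M / m) F0 Qo →
    ∃ (f g : ℂ → ℂ) (q : ℂ) (r : ℝ), 0 < r ∧
      (∀ z w, ‖f z - f w‖ ≤ M * ‖z - w‖) ∧ (∀ z w, ‖g z - g w‖ ≤ M / m * ‖z - w‖) ∧
      (∀ z, g (f z) = z) ∧ (∀ z, f (g z) = z) ∧
      (∀ᵐ z ∂(volume : Measure ℂ), LocL f z) ∧
      f q = lin F0 q ∧ f (q + r) = lin F0 (q + r) ∧ f (q + r * Complex.I) = lin F0 (q + r * Complex.I)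

/-- the final statement -/
def MainC : Prop :=
  ∃ (f : ℂ ≃ₜ ℂ) (L : ℝ), 0 < L ∧
    (∀ z w, ‖f z - f w‖ ≤ L * ‖z - w‖) ∧ (∀ z w, ‖z - w‖ ≤ L * ‖f z - f w‖) ∧
    (∃ H : ℝ, ∀ z : ℂ, ∀ r > 0, ∀ w ∈ Metric.sphere z r, ∀ w' ∈ Metric.sphere z r,
      ‖f w - f z‖ ≤ H * ‖f w' - f z‖) ∧
    (∀ᵐ z ∂(volume : Measure ℂ), ∃ a b : ℝ, 0 < a ∧ 0 < b ∧ a ≤ 6.1 * b ∧ b ≤ 6.1 * a ∧
      ∃ c : ℂ, (∀ᶠ w in 𝓝 z, f w = ⟨a * w.re, b * w.im⟩ + c) ∨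
        (∀ᶠ w in 𝓝 z, f w = ⟨-(a * w.im), b * w.re⟩ + c)) ∧
    (∀ᵐ z ∂(volume : Measure ℂ), DifferentiableAt ℝ (⇑f) z ∧
      (((fderiv ℝ (⇑f) z 1).im = 0 ∧ (fderiv ℝ (⇑f) z Complex.I).re = 0) ∨
       ((fderiv ℝ (⇑f) z 1).re = 0 ∧ (fderiv ℝ (⇑f) z Complex.I).im = 0))) ∧
    ¬ ∃ g h : ℝ → ℝ,
      (∀ z : ℂ, f z = ⟨g z.re, h z.im⟩) ∨ (∀ z : ℂ, f z = ⟨g z.im, h z.re⟩)

def S_FIN : Prop := S_LIN →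
  (∃ (f g : ℂ → ℂ) (q : ℂ) (r : ℝ), 0 < r ∧
      (∀ z w, ‖f z - f w‖ ≤ 45 * ‖z - w‖) ∧ (∀ z w, ‖g z - g w‖ ≤ 45 / 100 * ‖z - w‖) ∧
      (∀ z, g (f z) = z) ∧ (∀ z, f (g z) = z) ∧
      (∀ᵐ z ∂(volume : Measure ℂ), LocL f z) ∧
      f q = lin P1 q ∧ f (q + r) = lin P1 (q + r) ∧
      f (q + r * Complex.I) = lin P1 (q + r * Complex.I)) → MainC

end Pool.Agent.H895R3.QC
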