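import Mathlib
import Pool.Agent.H895R3.QC.Defs

set_option autoImplicit false

open MeasureTheory Filter Topology Set

namespace Pool.Agent.H895R3.QC

theorem bil_rk_smul (F : V) (c : ℝ) (x n : ℂ) : rk F 1 x ((c : ℂ) * n) = rk F c x n := by
  unfold rk
  rw [Complex.re_ofReal_mul, Complex.im_ofReal_mul]
  refine Prod.ext ?_ (Prod.ext ?_ (Prod.ext ?_ ?_)) <;> simp only <;> ring

theorem bil_rk_zero (F : V) (x : ℂ) : rk F 1 x 0 = F := by
  unfold rk
  refine Prod.ext ?_ (Prod.ext ?_ (Prod.ext ?_ ?_)) <;> simp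

theorem bil_rk_rk (F : V) (x p q : ℂ) : rk (rk F 1 x p) 1 x (q - p) = rk F 1 x q := by
  unfold rk
  rw [Complex.sub_re, Complex.sub_im]
  refine Prod.ext ?_ (Prod.ext ?_ (Prod.ext ?_ ?_)) <;> simp only <;> ring

theorem bil_dot_smul (c : ℝ) (n v : ℂ) : dot ((c : ℂ) * n) v = c * dot n v := by
  unfold dot
  rw [Complex.re_ofReal_mul, Complex.im_ofReal_mul]
  ring

theorem bil_dot_zero (v : ℂ) : dot 0 v = 0 := by
  unfold dot; simp

theorem bil_dot_sub (p q v : ℂ) : dot (q - p) v = dot q v - dot p v := by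
  unfold dot
  rw [Complex.sub_re, Complex.sub_im]
  ring

theorem bil_dot_sub_right (n z w : ℂ) : dot n (z - w) = dot n z - dot n w := by
  unfold dot
  rw [Complex.sub_re, Complex.sub_im]
  ring

theorem bil_gen (hL : S_LIN) (M m : ℝ) (F : V) (x p q v : ℂ) (s : ℝ) (hM : 0 < M) (hm : 0 < m)
    (hp : Ok M m (rk F 1 x p)) (hq : Ok M m (rk F 1 x q)) (h1 : dot p v ≤ s) (h2 : s ≤ dot q v) :
    ‖lin F v + (s : ℂ) * x‖ ≤ M * ‖v‖ ∧ ‖v‖ ≤ M / m * ‖lin F v + (s : ℂ) * x‖ := by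
  obtain ⟨hrk, -, -, -, -, hok, -, hseg⟩ := hL
  obtain ⟨τ, hτ0, hτ1, hτ⟩ : ∃ τ : ℝ, 0 ≤ τ ∧ τ ≤ 1 ∧ s = dot p v + τ * (dot q v - dot p v) := by
    by_cases h : dot q v - dot p v = 0
    · exact ⟨0, le_rfl, zero_le_one, by linarith⟩
    · have h3 : 0 < dot q v - dot p v := lt_of_le_of_ne (by linarith) (Ne.symm h)
      refine ⟨(s - dot p v) / (dot q v - dot p v), div_nonneg (by linarith) h3.le, ?_, ?_⟩
      · rw [div_le_one h3]; linarith
      · rw [div_mul_cancel₀ _ h]; ring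
  have hq' : Ok M m (rk (rk F 1 x p) 1 x (q - p)) := by rw [bil_rk_rk]; exact hq
  have h3 := hseg M m (rk F 1 x p) 1 τ x (q - p) hτ0 hτ1 hp hq'
  have h4 := hok M m _ hM hm h3 v
  have h5 : lin (rk (rk F 1 x p) (τ * 1) x (q - p)) v = lin F v + (s : ℂ) * x := by
    rw [hrk, hrk, bil_dot_sub, hτ]
    push_cast
    ring
  rw [h5] at h4
  exact h4

theorem t_BIL : S_BIL := by
  intro hL hMV M m F x n e l hM hm hl0 hl1 hF hF1 hF2 hF3 hF4 z w
  set v := z - w with hv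
  set s := roof l (dot n z) (e * dot (perp n) z) - roof l (dot n w) (e * dot (perp n) w) with hs
  have hpsi : psi F x n e l z - psi F x n e l w = lin F v + (s : ℂ) * x := by
    unfold psi
    rw [hv, hL.2.2.1, hs]
    push_cast
    ring
  rw [hpsi]
  obtain ⟨hmax, hmin⟩ := hMV l (dot n w) (e * dot (perp n) w) (dot n z) (e * dot (perp n) z) hl0 hl1
  rw [← hs, ← bil_dot_sub_right, ← mul_sub, ← bil_dot_sub_right, ← hv] at hmax hmin
  have c0 : Ok M m (rk F 1 x 0) := by rw [bil_rk_zero]; exact hF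
  have c1 : Ok M m (rk F 1 x (((1 - l : ℝ) : ℂ) * n)) := by rw [bil_rk_smul]; exact hF1
  have c2 : Ok M m (rk F 1 x (((-l : ℝ) : ℂ) * n)) := by rw [bil_rk_smul]; exact hF2
  have c3 : Ok M m (rk F 1 x (((8 * e : ℝ) : ℂ) * perp n)) := by rw [bil_rk_smul]; exact hF3
  have c4 : Ok M m (rk F 1 x (((-(8 * e) : ℝ) : ℂ) * perp n)) := by rw [bil_rk_smul]; exact hF4
  have d1 := bil_dot_smul (1 - l) n v
  have d2 := bil_dot_smul (-l) n v
  have d3 := bil_dot_smul (8 * e) (perp n) v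
  have d4 := bil_dot_smul (-(8 * e)) (perp n) v
  have hlo : ∃ p, Ok M m (rk F 1 x p) ∧ dot p v ≤ s := by
    simp only [min_le_iff] at hmin
    rcases hmin with h | ((h | h) | (h | h))
    · exact ⟨0, c0, by rw [bil_dot_zero]; exact h⟩
    · exact ⟨_, c1, by rw [d1]; exact h⟩
    · exact ⟨_, c2, by rw [d2]; exact h⟩
    · exact ⟨_, c3, by rw [d3]; linarith⟩
    · exact ⟨_, c4, by rw [d4]; linarith⟩
  have hhi : ∃ q, Ok M m (rk F 1 x q) ∧ s ≤ dot q v := by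
    simp only [le_max_iff] at hmax
    rcases hmax with h | ((h | h) | (h | h))
    · exact ⟨0, c0, by rw [bil_dot_zero]; exact h⟩
    · exact ⟨_, c1, by rw [d1]; exact h⟩
    · exact ⟨_, c2, by rw [d2]; exact h⟩
    · exact ⟨_, c3, by rw [d3]; linarith⟩
    · exact ⟨_, c4, by rw [d4]; linarith⟩
  obtain ⟨p, hp, hp'⟩ := hlo
  obtain ⟨q, hq, hq'⟩ := hhi
  exact bil_gen hL M m F x p q v s hM hm hp hq hp' hq'

end Pool.Agent.H895R3.QC
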