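import Mathlib
import Pool.Agent.H895R3.QC.Defs

set_option autoImplicit false

open MeasureTheory Filter Topology Set

namespace Pool.Agent.H895R3.QC

/-- forward map -/
def cel_fwd (n : ℂ) (e : ℝ) : ℂ →ₗ[ℝ] ℂ where
  toFun z := ⟨dot n z, e * dot (perp n) z⟩
  map_add' z w := by
    apply Complex.ext
    · simp only [dot, Complex.add_re, Complex.add_im]; ring
    · simp only [dot, Complex.add_re, Complex.add_im]; ring
  map_smul' t z := by
    apply Complex.ext
    · simp only [dot, RingHom.id_apply, Complex.smul_re, Complex.smul_im, smul_eq_mul]; ring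
    · simp only [dot, RingHom.id_apply, Complex.smul_re, Complex.smul_im, smul_eq_mul]; ring

/-- backward map -/
noncomputable def cel_bwd (n : ℂ) (e : ℝ) : ℂ →ₗ[ℝ] ℂ where
  toFun w := ⟨(n.re * w.re - n.im * (w.im / e)) / (n.re ^ 2 + n.im ^ 2),
    (n.im * w.re + n.re * (w.im / e)) / (n.re ^ 2 + n.im ^ 2)⟩
  map_add' z w := by
    apply Complex.ext
    · simp only [Complex.add_re, Complex.add_im]; ring
    · simp only [Complex.add_re, Complex.add_im]; ring
  map_smul' t z := by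
    apply Complex.ext
    · simp only [RingHom.id_apply, Complex.smul_re, Complex.smul_im, smul_eq_mul]; ring
    · simp only [RingHom.id_apply, Complex.smul_re, Complex.smul_im, smul_eq_mul]; ring

theorem cel_nsq {n : ℂ} (hn : n ≠ 0) : 0 < n.re ^ 2 + n.im ^ 2 := by
  have h := Complex.normSq_pos.mpr hn
  rw [Complex.normSq_apply] at h
  nlinarith

/-- the linear equivalence -/
noncomputable def cel_equiv (n : ℂ) (e : ℝ) (hn : n ≠ 0) (he : 0 < e) : ℂ ≃ₗ[ℝ] ℂ :=
  LinearEquiv.ofLinearMap (cel_fwd n e) (cel_bwd n e)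
    (by
      have h := cel_nsq hn
      have h1 : n.re ^ 2 + n.im ^ 2 ≠ 0 := h.ne'
      have h2 : e ≠ 0 := he.ne'
      refine LinearMap.ext fun w => ?_
      apply Complex.ext
      · change n.re * ((n.re * w.re - n.im * (w.im / e)) / (n.re ^ 2 + n.im ^ 2)) +
          n.im * ((n.im * w.re + n.re * (w.im / e)) / (n.re ^ 2 + n.im ^ 2)) = w.re
        field_simp
        ring
      · change e * (-n.im * ((n.re * w.re - n.im * (w.im / e)) / (n.re ^ 2 + n.im ^ 2)) +
          n.re * ((n.im * w.re + n.re * (w.im / e)) / (n.re ^ 2 + n.im ^ 2))) = w.im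
        field_simp
        ring)
    (by
      have h := cel_nsq hn
      have h1 : n.re ^ 2 + n.im ^ 2 ≠ 0 := h.ne'
      have h2 : e ≠ 0 := he.ne'
      refine LinearMap.ext fun w => ?_
      apply Complex.ext
      · change (n.re * (n.re * w.re + n.im * w.im) -
          n.im * (e * (-n.im * w.re + n.re * w.im) / e)) / (n.re ^ 2 + n.im ^ 2) = w.re
        field_simp
        ring
      · change (n.im * (n.re * w.re + n.im * w.im) +
          n.re * (e * (-n.im * w.re + n.re * w.im) / e)) / (n.re ^ 2 + n.im ^ 2) = w.im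
        field_simp
        ring)

theorem t_CEL : S_CEL := by
  intro hLIN hBIL hMV hSRJ hUNA hUNB U M m hM hm hSplit F hF
  obtain ⟨hUo, hUOk, hUs⟩ := hSplit
  obtain ⟨l, x, n, hl1, hl2, hn, hL, hOkB, hG⟩ := hUs F hF
  have hlin := hLIN.1
  -- choice of e
  obtain ⟨e, he, he1, he2⟩ : ∃ e : ℝ, 0 < e ∧ rk F (8 * e) x (perp n) ∈ U ∧
      rk F (-(8 * e)) x (perp n) ∈ U := by
    have hcont : Continuous (fun t : ℝ => rk F t x (perp n)) := by
      unfold rk
      fun_prop
    have h0 : rk F 0 x (perp n) = F := by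
      unfold rk
      simp
    have hmem : (fun t : ℝ => rk F t x (perp n)) ⁻¹' U ∈ 𝓝 (0 : ℝ) := by
      refine hcont.continuousAt.preimage_mem_nhds ?_
      rw [h0]
      exact hUo.mem_nhds hF
    obtain ⟨δ, hδ, hball⟩ := Metric.mem_nhds_iff.mp hmem
    refine ⟨δ / 16, by positivity, ?_, ?_⟩
    · refine hball ?_
      rw [Metric.mem_ball, Real.dist_eq, sub_zero, abs_of_pos (by positivity)]
      linarith
    · refine hball ?_
      rw [Metric.mem_ball, Real.dist_eq, sub_zero, abs_neg, abs_of_pos (by positivity)]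
      linarith
  have hl0 : 0 ≤ l := by linarith
  have hl1' : l ≤ 1 := by linarith
  let Φ : ℂ ≃L[ℝ] ℂ := (cel_equiv n e hn he).toContinuousLinearEquiv
  have hΦ : ∀ z, Φ z = ⟨dot n z, e * dot (perp n) z⟩ := fun z => rfl
  have hre : ∀ z, (Φ z).re = dot n z := fun z => rfl
  have him : ∀ z, (Φ z).im = e * dot (perp n) z := fun z => rfl
  obtain ⟨hR1o, hR2o, hR3o, hR4o, hR1s, hR2s, hR3s, hR4s, hdis, hr1, hr2, hr3, hr4, hr0, hrb⟩ :=
    hUNA l hl1 hl2
  obtain ⟨hU1, hSqc, hSqv, hSqi⟩ := hUNB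
  obtain ⟨hv0, hv1⟩ := hU1 l hl1 hl2
  have hbil := hBIL hLIN hMV M m F x n e l hM hm hl0 hl1' (hUOk F hF) hOkB (hUOk _ hG)
    (hUOk _ he1) (hUOk _ he2)
  have hvd : vdet F ≠ 0 := (lt_of_lt_of_le hm (hUOk F hF).2).ne'
  have hpsi : ∀ z, psi F x n e l z = lin F z + ((roof l (Φ z).re (Φ z).im : ℝ) : ℂ) * x :=
    fun z => rfl
  have hcont : Continuous Φ := Φ.continuous
  refine ⟨Φ ⁻¹' Sq, psi F x n e l, Φ ⁻¹' (R2 l ∪ R3 l ∪ R4 l), Φ ⁻¹' (R1 l), ‖x‖,
    ?_, ?_, ?_, ?_, fun z w => (hbil z w).1, fun z w => (hbil z w).2,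
    hSRJ hLIN F x n e l hl0 hl1' hvd, ?_, ?_, ?_, ?_, ?_, ?_, ?_, ?_, ?_, ?_⟩
  · exact Φ.toHomeomorph.isCompact_preimage.mpr hSqc
  · exact hSqv.linear_preimage (Φ : ℂ →ₗ[ℝ] ℂ)
  · obtain ⟨w, hw⟩ := hSqi
    refine ⟨Φ.symm w, ?_⟩
    have h1 : Φ ⁻¹' (interior Sq) ⊆ interior (Φ ⁻¹' Sq) :=
      interior_maximal (preimage_mono interior_subset) (isOpen_interior.preimage hcont)
    exact h1 (by simpa using hw)
  · intro z hz
    rw [hpsi, hr0 _ hz]
    simp
  · intro z
    rw [hpsi, add_sub_cancel_left, norm_mul, Complex.norm_real, Real.norm_of_nonneg (hrb _ _).1]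
    calc roof l (Φ z).re (Φ z).im * ‖x‖ ≤ 1 * ‖x‖ :=
          mul_le_mul_of_nonneg_right (hrb _ _).2 (norm_nonneg _)
      _ = ‖x‖ := one_mul _
  · exact ((hR2o.union hR3o).union hR4o).preimage hcont
  · exact hR1o.preimage hcont
  · exact preimage_mono (union_subset (union_subset hR2s hR3s) hR4s)
  · exact preimage_mono hR1s
  · exact hdis.preimage _
  · intro z hz
    rcases hz with (hz | hz) | hz
    · refine ⟨rk F (-l) x n, hG, (l : ℂ) * x, ?_⟩
      filter_upwards [(hR2o.preimage hcont).mem_nhds hz] with w hw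
      rw [hpsi, hr2 _ hw, hre, hlin]
      push_cast
      ring
    · refine ⟨rk F (8 * e) x (perp n), he1, 0, ?_⟩
      filter_upwards [(hR3o.preimage hcont).mem_nhds hz] with w hw
      rw [hpsi, hr3 _ hw, him, hlin]
      push_cast
      ring
    · refine ⟨rk F (-(8 * e)) x (perp n), he2, 8 * x, ?_⟩
      filter_upwards [(hR4o.preimage hcont).mem_nhds hz] with w hw
      rw [hpsi, hr4 _ hw, him, hlin]
      push_cast
      ring
  · intro z hz
    refine ⟨rk F (1 - l) x n, hL, 0, ?_⟩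
    filter_upwards [(hR1o.preimage hcont).mem_nhds hz] with w hw
    rw [hpsi, hr1 _ hw, hre, hlin]
    push_cast
    ring
  · have h1 : (Φ ⁻¹' Sq) \ (Φ ⁻¹' (R2 l ∪ R3 l ∪ R4 l) ∪ Φ ⁻¹' (R1 l)) =
        Φ ⁻¹' (Sq \ (R2 l ∪ R3 l ∪ R4 l ∪ R1 l)) := rfl
    rw [h1, MeasureTheory.Measure.addHaar_preimage_continuousLinearEquiv, hv0, mul_zero]
  · rw [MeasureTheory.Measure.addHaar_preimage_continuousLinearEquiv,
      MeasureTheory.Measure.addHaar_preimage_continuousLinearEquiv]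
    calc _ ≤ ENNReal.ofReal |LinearMap.det (Φ.symm : ℂ →ₗ[ℝ] ℂ)| *
          (ENNReal.ofReal (15 / 16) * volume Sq) := mul_le_mul' le_rfl hv1
      _ = _ := by ring

end Pool.Agent.H895R3.QC
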