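import Mathlib
import Pool.Agent.H895R3.QC.Defs

set_option autoImplicit false

open MeasureTheory Filter Topology Set

namespace Pool.Agent.H895R3.QC

theorem t_COV : S_COV := by
  intro hVIT hPCS U f W hW hloc C ρ hC
  obtain ⟨W', A, c, hopen, hdisj, hunion, hpc⟩ := hPCS U f W hW hloc
  have hk : ∀ k, ∃ (J : Set ℕ) (q : ℕ → ℂ) (r : ℕ → ℝ),
      (∀ j ∈ J, A k ∈ U ∧ 0 < r j ∧ r j ≤ ρ (A k) ∧ cell (C (A k)) (q j) (r j) ⊆ W' k) ∧
      (∀ i ∈ J, ∀ j ∈ J, i ≠ j →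
        Disjoint (cell (C (A k)) (q i) (r i)) (cell (C (A k)) (q j) (r j))) ∧
      volume (W' k \ ⋃ j ∈ J, cell (C (A k)) (q j) (r j)) = 0 := by
    intro k
    rcases (W' k).eq_empty_or_nonempty with he | hne
    · refine ⟨∅, fun _ => 0, fun _ => 0, ?_, ?_, ?_⟩
      · intro j hj; exact absurd hj (Set.notMem_empty j)
      · intro i hi; exact absurd hi (Set.notMem_empty i)
      · rw [he, Set.empty_sdiff]; exact measure_empty
    · obtain ⟨hAU, -⟩ := hpc k hne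
      obtain ⟨h1, h2, h3⟩ := hC (A k) hAU
      obtain ⟨J, q, r, hJ1, hJ2, hJ3⟩ := hVIT (C (A k)) h1 h2 (W' k) (hopen k) (ρ (A k)) h3
      exact ⟨J, q, r, fun j hj => ⟨hAU, hJ1 j hj⟩, hJ2, hJ3⟩
  choose J q r h1 h2 h3 using hk
  have hsub : ∀ k, W' k ⊆ W := fun k => by
    rw [← hunion]; exact Set.subset_iUnion W' k
  refine ⟨{N | N.unpair.2 ∈ J N.unpair.1}, fun N => q N.unpair.1 N.unpair.2,
    fun N => r N.unpair.1 N.unpair.2, fun N => A N.unpair.1, fun N => c N.unpair.1, ?_, ?_, ?_⟩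
  · intro N hN
    obtain ⟨a1, a2, a3, a4⟩ := h1 N.unpair.1 N.unpair.2 hN
    refine ⟨a1, a2, a3, a4.trans (hsub _), fun z hz => ?_⟩
    exact (hpc N.unpair.1 ⟨z, a4 hz⟩).2 z (a4 hz)
  · intro M hM N hN hMN
    by_cases hkk : M.unpair.1 = N.unpair.1
    · have hne : M.unpair.2 ≠ N.unpair.2 := by
        intro h
        apply hMN
        rw [← Nat.pair_unpair M, ← Nat.pair_unpair N, hkk, h]
      have hM' : M.unpair.2 ∈ J N.unpair.1 := by
        rw [← hkk]; exact hM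
      have := h2 N.unpair.1 M.unpair.2 hM' N.unpair.2 hN hne
      simp only
      rw [hkk]
      exact this
    · exact (hdisj _ _ hkk).mono (h1 M.unpair.1 M.unpair.2 hM).2.2.2
        (h1 N.unpair.1 N.unpair.2 hN).2.2.2
  · have hnull : volume (⋃ k, (W' k \ ⋃ j ∈ J k, cell (C (A k)) (q k j) (r k j))) = 0 := by
      rw [measure_iUnion_null_iff]
      exact h3
    refine measure_mono_null ?_ hnull
    rintro z ⟨hzW, hz⟩
    rw [← hunion] at hzW
    obtain ⟨k, hzk⟩ := Set.mem_iUnion.1 hzW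
    refine Set.mem_iUnion.2 ⟨k, hzk, fun hz2 => hz ?_⟩
    obtain ⟨j, hj⟩ := Set.mem_iUnion.1 hz2
    obtain ⟨hjJ, hzj⟩ := Set.mem_iUnion.1 hj
    refine Set.mem_iUnion.2 ⟨Nat.pair k j, Set.mem_iUnion.2 ⟨?_, ?_⟩⟩
    · show (Nat.pair k j).unpair.2 ∈ J (Nat.pair k j).unpair.1
      rw [Nat.unpair_pair]; exact hjJ
    · simp only [Nat.unpair_pair]
      exact hzj

end Pool.Agent.H895R3.QC
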