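import Mathlib
import Pool.Agent.H895R3.QC.Defs

set_option autoImplicit false

open MeasureTheory Filter Topology Set

namespace Pool.Agent.H895R3.QC

/-- the real linear map `w ↦ ⟨a w.re, b w.im⟩` -/
noncomputable def fin_diag (a b : ℝ) : ℂ →L[ℝ] ℂ :=
  (a • Complex.reCLM).smulRight (1 : ℂ) + (b • Complex.imCLM).smulRight Complex.I

/-- the real linear map `w ↦ ⟨-(a w.im), b w.re⟩` -/
noncomputable def fin_anti (a b : ℝ) : ℂ →L[ℝ] ℂ :=
  ((-a) • Complex.imCLM).smulRight (1 : ℂ) + (b • Complex.reCLM).smulRight Complex.I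

theorem fin_diag_apply (a b : ℝ) (w : ℂ) : fin_diag a b w = ⟨a * w.re, b * w.im⟩ := by
  apply Complex.ext <;> simp [fin_diag]

theorem fin_anti_apply (a b : ℝ) (w : ℂ) : fin_anti a b w = ⟨-(a * w.im), b * w.re⟩ := by
  apply Complex.ext <;> simp [fin_anti]

theorem fin_loc {f : ℂ → ℂ} {z : ℂ} (h : LocL f z) :
    ∃ a b : ℝ, 0 < a ∧ 0 < b ∧ a ≤ 6.1 * b ∧ b ≤ 6.1 * a ∧
      ∃ c : ℂ, (∀ᶠ w in 𝓝 z, f w = ⟨a * w.re, b * w.im⟩ + c) ∨
        (∀ᶠ w in 𝓝 z, f w = ⟨-(a * w.im), b * w.re⟩ + c) := by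
  obtain ⟨B, hB, c, hc⟩ := h
  rcases hB with ⟨h1, h2, h3, h4, h5, h6⟩ | ⟨h1, h2, h3, h4, h5, h6⟩
  · refine ⟨B.1, B.2.2.2, h3, h4, h5, h6, c, Or.inl ?_⟩
    filter_upwards [hc] with w hw
    rw [hw]
    unfold lin
    rw [h1, h2]
    congr 1
    apply Complex.ext <;> simp
  · refine ⟨-B.2.1, B.2.2.1, by linarith, h4, h5, h6, c, Or.inr ?_⟩
    filter_upwards [hc] with w hw
    rw [hw]
    unfold lin
    rw [h1, h2]
    congr 1
    apply Complex.ext <;> simp

theorem t_FIN : S_FIN := by
  intro _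
  rintro ⟨f, g, q, r, hr, hf, hg, hgf, hfg, hae, e1, e2, e3⟩
  have hfl : LipschitzWith 45 f := LipschitzWith.of_dist_le_mul fun z w => by
    rw [dist_eq_norm, dist_eq_norm]
    exact hf z w
  have hgl : LipschitzWith 45 g := LipschitzWith.of_dist_le_mul fun z w => by
    rw [dist_eq_norm, dist_eq_norm]
    refine (hg z w).trans ?_
    have : (45 / 100 : ℝ) ≤ ((45 : NNReal) : ℝ) := by
      push_cast
      norm_num
    exact mul_le_mul_of_nonneg_right this (norm_nonneg _)
  have hlow : ∀ z w, ‖z - w‖ ≤ 45 / 100 * ‖f z - f w‖ := fun z w => by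
    have := hg (f z) (f w)
    rwa [hgf, hgf] at this
  refine ⟨{ toFun := f, invFun := g, left_inv := hgf, right_inv := hfg,
            continuous_toFun := hfl.continuous, continuous_invFun := hgl.continuous }, 45,
    by norm_num, hf, fun z w => ?_, ⟨45 * (45 / 100), fun z s hs w hw w' hw' => ?_⟩, ?_, ?_, ?_⟩
  · refine (hlow z w).trans ?_
    exact mul_le_mul_of_nonneg_right (by norm_num) (norm_nonneg _)
  · rw [mem_sphere_iff_norm] at hw hw'
    have h1 := hf w z
    have h2 := hlow w' z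
    show ‖f w - f z‖ ≤ 45 * (45 / 100) * ‖f w' - f z‖
    rw [hw] at h1
    rw [hw'] at h2
    linarith
  · filter_upwards [hae] with z hz
    exact fin_loc hz
  · filter_upwards [hae] with z hz
    obtain ⟨a, b, -, -, -, -, c, h | h⟩ := fin_loc hz
    · have h1 : HasFDerivAt f (fin_diag a b) z := by
        have h2 : HasFDerivAt (fun w => fin_diag a b w + c) (fin_diag a b) z :=
          (fin_diag a b).hasFDerivAt.add_const c
        refine h2.congr_of_eventuallyEq ?_
        filter_upwards [h] with w hw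
        rw [hw, fin_diag_apply]
      refine ⟨h1.differentiableAt, Or.inl ?_⟩
      show (fderiv ℝ f z 1).im = 0 ∧ (fderiv ℝ f z Complex.I).re = 0
      rw [h1.fderiv, fin_diag_apply, fin_diag_apply]
      simp
    · have h1 : HasFDerivAt f (fin_anti a b) z := by
        have h2 : HasFDerivAt (fun w => fin_anti a b w + c) (fin_anti a b) z :=
          (fin_anti a b).hasFDerivAt.add_const c
        refine h2.congr_of_eventuallyEq ?_
        filter_upwards [h] with w hw
        rw [hw, fin_anti_apply]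
      refine ⟨h1.differentiableAt, Or.inr ?_⟩
      show (fderiv ℝ f z 1).re = 0 ∧ (fderiv ℝ f z Complex.I).im = 0
      rw [h1.fderiv, fin_anti_apply, fin_anti_apply]
      simp
  · rintro ⟨g', h', h | h⟩
    · have h1 : f q = ⟨g' q.re, h' q.im⟩ := h q
      have h2 : f (q + r * Complex.I) = ⟨g' (q + r * Complex.I).re, h' (q + r * Complex.I).im⟩ :=
        h _
      rw [e1] at h1
      rw [e3] at h2
      have h3 := congrArg Complex.re h1
      have h4 := congrArg Complex.re h2
      simp [lin, P1] at h3 h4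
      linarith
    · have h1 : f q = ⟨g' q.im, h' q.re⟩ := h q
      have h2 : f (q + r) = ⟨g' (q + r : ℂ).im, h' (q + r : ℂ).re⟩ := h _
      rw [e1] at h1
      rw [e2] at h2
      have h3 := congrArg Complex.re h1
      have h4 := congrArg Complex.re h2
      simp [lin, P1] at h3 h4
      linarith

end Pool.Agent.H895R3.QC
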