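import Mathlib
import Pool.Agent.H895R3.QC.Defs

set_option autoImplicit false

open MeasureTheory Filter Topology Set

namespace Pool.Agent.H895R3.QC

theorem gl2_cont (M : ℝ) (f : ℂ → ℂ) (h : ∀ z w, ‖f z - f w‖ ≤ M * ‖z - w‖) : Continuous f := by
  refine (LipschitzWith.of_dist_le' (K := M) fun x y => ?_).continuous
  rw [dist_eq_norm, dist_eq_norm]
  exact h x y

/-- the facts about one cell -/
theorem gl2_one (M K : ℝ) (f g T φ ψ : ℂ → ℂ) (C : Set ℂ)
    (hgf : ∀ z, g (f z) = z) (hTinj : Function.Injective T) (hTsurj : Function.Surjective T)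
    (hTc : Continuous T) (hC : IsClosed C) (hfT : ∀ z ∈ C, f z = T z)
    (hφT : ∀ z, z ∉ C → φ z = T z) (hφL : ∀ z w, ‖φ z - φ w‖ ≤ M * ‖z - w‖)
    (hφK : ∀ z w, ‖z - w‖ ≤ K * ‖φ z - φ w‖) (hφψ : ∀ y, φ (ψ y) = y) :
    (∀ z, ψ (φ z) = z) ∧ (∀ z ∈ C, φ z ∈ f '' C) ∧ (∀ z, z ∉ C → φ z ∉ f '' C) ∧
    (∀ z ∈ frontier C, φ z = f z) ∧ (IsClosed (f '' C) → ∀ y ∈ frontier (f '' C), ψ y = g y) := by
  have hinj : Function.Injective φ := by
    intro z w h
    have := hφK z w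
    rw [h, sub_self, norm_zero, mul_zero] at this
    exact sub_eq_zero.1 (norm_le_zero_iff.1 this)
  have hb : ∀ z, z ∉ C → φ z ∉ f '' C := by
    rintro z hz ⟨x, hx, hxz⟩
    rw [hfT x hx, hφT z hz] at hxz
    exact hz (hTinj hxz ▸ hx)
  have ha : ∀ z ∈ C, φ z ∈ f '' C := by
    intro z hz
    by_contra hcon
    obtain ⟨x, hx⟩ := hTsurj (φ z)
    have hxC : x ∉ C := fun h => hcon ⟨x, h, by rw [hfT x h, hx]⟩
    have : x = z := hinj (by rw [hφT x hxC, hx])
    exact hxC (this ▸ hz)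
  have hφc := gl2_cont M φ hφL
  have hψL : ∀ y y', ‖ψ y - ψ y'‖ ≤ K * ‖y - y'‖ := by
    intro y y'
    have := hφK (ψ y) (ψ y')
    rwa [hφψ, hφψ] at this
  have hψc := gl2_cont K ψ hψL
  refine ⟨fun z => hinj (hφψ (φ z)), ha, hb, ?_, ?_⟩
  · intro z hz
    have h1 : z ∈ closure Cᶜ := by
      rw [frontier_eq_closure_inter_closure] at hz
      exact hz.2
    have h2 : closure Cᶜ ⊆ {z | φ z = T z} :=
      closure_minimal (fun z hz => hφT z hz) (isClosed_eq hφc hTc)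
    rw [hfT z (hC.frontier_subset hz)]
    exact h2 h1
  · intro hD y hy
    have h1 : y ∈ closure (f '' C)ᶜ := by
      rw [frontier_eq_closure_inter_closure] at hy
      exact hy.2
    have h2 : closure (f '' C)ᶜ ⊆ {y | T (ψ y) = y} := by
      refine closure_minimal (fun y hy => ?_) (isClosed_eq (hTc.comp hψc) continuous_id)
      have h3 : ψ y ∉ C := by
        intro h
        have := ha _ h
        rw [hφψ] at this
        exact hy this
      show T (ψ y) = y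
      rw [← hφT _ h3, hφψ]
    have h3 : T (ψ y) = y := h2 h1
    obtain ⟨x, hx, hxy⟩ := hD.frontier_subset hy
    have h4 : ψ y = x := hTinj (by rw [h3, ← hxy, hfT x hx])
    rw [h4, ← hxy, hgf]

open Classical in
theorem t_GL2 : S_GL2 := by
  intro hLIN hGLU M m K f g J C A c φ hM hm hK hfL hgL hgf hfg hJ hdisj
  obtain ⟨_, hadd, hsub, hmul, hlc, _, hbij, _⟩ := hLIN
  have hfinj : Function.Injective f := fun z w h => by rw [← hgf z, ← hgf w, h]
  have hfc : Continuous f := gl2_cont M f hfL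
  set ψ : ℕ → ℂ → ℂ := fun j => Function.invFun (φ j) with hψ
  have hφψ : ∀ j ∈ J, ∀ y, φ j (ψ j y) = y := fun j hj =>
    Function.rightInverse_invFun (hJ j hj).2.2.2.2.2.2.2
  have hone := fun j (hj : j ∈ J) => gl2_one M K f g (fun z => lin (A j) z + c j) (φ j) (ψ j) (C j)
    hgf (fun z w h => (hbij (A j) (hJ j hj).2.2.1).1 (add_right_cancel h))
    (fun y => by
      obtain ⟨z, hz⟩ := (hbij (A j) (hJ j hj).2.2.1).2 (y - c j)
      exact ⟨z, by show lin (A j) z + c j = y; rw [hz]; ring⟩)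
    ((hlc (A j)).add continuous_const) (hJ j hj).1.isClosed (hJ j hj).2.2.2.1 (hJ j hj).2.2.2.2.1
    (hJ j hj).2.2.2.2.2.1 (hJ j hj).2.2.2.2.2.2.1 (hφψ j hj)
  set f' : ℂ → ℂ := fun z => if h : ∃ j, j ∈ J ∧ z ∈ C j then φ h.choose z else f z with hf'
  set g' : ℂ → ℂ := fun y => if h : ∃ j, j ∈ J ∧ y ∈ f '' C j then ψ h.choose y else g y with hg'
  have hdisjD : ∀ i ∈ J, ∀ j ∈ J, i ≠ j → Disjoint (f '' C i) (f '' C j) := fun i hi j hj hij =>
    (Set.disjoint_image_iff hfinj).2 (hdisj i hi j hj hij)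
  have f'in : ∀ j ∈ J, ∀ z ∈ C j, f' z = φ j z := by
    intro j hj z hz
    have h : ∃ j, j ∈ J ∧ z ∈ C j := ⟨j, hj, hz⟩
    have h1 : h.choose = j := by
      by_contra hne
      exact Set.disjoint_left.1 (hdisj _ h.choose_spec.1 j hj hne) h.choose_spec.2 hz
    simp only [hf']
    rw [dif_pos h, h1]
  have f'out : ∀ z, (∀ j ∈ J, z ∉ C j) → f' z = f z := by
    intro z hz
    simp only [hf']
    rw [dif_neg]
    rintro ⟨j, hj, h⟩
    exact hz j hj h
  have g'in : ∀ j ∈ J, ∀ y ∈ f '' C j, g' y = ψ j y := by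
    intro j hj y hy
    have h : ∃ j, j ∈ J ∧ y ∈ f '' C j := ⟨j, hj, hy⟩
    have h1 : h.choose = j := by
      by_contra hne
      exact Set.disjoint_left.1 (hdisjD _ h.choose_spec.1 j hj hne) h.choose_spec.2 hy
    simp only [hg']
    rw [dif_pos h, h1]
  have g'out : ∀ y, (∀ j ∈ J, y ∉ f '' C j) → g' y = g y := by
    intro y hy
    simp only [hg']
    rw [dif_neg]
    rintro ⟨j, hj, h⟩
    exact hy j hj h
  have hclD : ∀ j ∈ J, IsClosed (f '' C j) := fun j hj => ((hJ j hj).1.image hfc).isClosed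
  have hcvD : ∀ j ∈ J, Convex ℝ (f '' C j) := by
    intro j hj
    rintro _ ⟨z₁, h₁, rfl⟩ _ ⟨z₂, h₂, rfl⟩ a b ha hb hab
    refine ⟨a • z₁ + b • z₂, (hJ j hj).2.1 h₁ h₂ ha hb hab, ?_⟩
    rw [(hJ j hj).2.2.2.1 _ ((hJ j hj).2.1 h₁ h₂ ha hb hab), (hJ j hj).2.2.2.1 _ h₁,
      (hJ j hj).2.2.2.1 _ h₂, hadd, Complex.real_smul, Complex.real_smul, hmul, hmul,
      Complex.real_smul, Complex.real_smul]
    have : (a : ℂ) + b = 1 := by exact_mod_cast hab
    have h3 : (b : ℂ) = 1 - a := by rw [← this]; ring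
    rw [h3]
    ring
  refine ⟨f', g', ?_, ?_, ?_, ?_, f'out, f'in⟩
  · refine hGLU M f f' J C hM.le (fun j hj => ⟨(hJ j hj).1.isClosed, (hJ j hj).2.1⟩) hdisj hfL ?_
      f'out ?_
    · intro j hj z hz w hw
      rw [f'in j hj z hz, f'in j hj w hw]
      exact (hJ j hj).2.2.2.2.2.1 z w
    · intro j hj z hz
      rw [f'in j hj z ((hJ j hj).1.isClosed.frontier_subset hz)]
      exact (hone j hj).2.2.2.1 z hz
  · refine hGLU K g g' J (fun j => f '' C j) hK (fun j hj => ⟨hclD j hj, hcvD j hj⟩) hdisjD hgL ?_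
      g'out ?_
    · intro j hj y hy y' hy'
      rw [g'in j hj y hy, g'in j hj y' hy']
      have := (hJ j hj).2.2.2.2.2.2.1 (ψ j y) (ψ j y')
      rwa [hφψ j hj, hφψ j hj] at this
    · intro j hj y hy
      rw [g'in j hj y ((hclD j hj).frontier_subset hy)]
      exact (hone j hj).2.2.2.2 (hclD j hj) y hy
  · intro z
    by_cases h : ∃ j ∈ J, z ∈ C j
    · obtain ⟨j, hj, hz⟩ := h
      rw [f'in j hj z hz, g'in j hj _ ((hone j hj).2.1 z hz)]
      exact (hone j hj).1 z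
    · push Not at h
      rw [f'out z h, g'out, hgf]
      rintro j hj ⟨x, hx, hxz⟩
      exact h j hj (hfinj hxz ▸ hx)
  · intro y
    by_cases h : ∃ j ∈ J, y ∈ f '' C j
    · obtain ⟨j, hj, hy⟩ := h
      rw [g'in j hj y hy]
      have h1 : ψ j y ∈ C j := by
        by_contra hcon
        have := (hone j hj).2.2.1 _ hcon
        rw [hφψ j hj] at this
        exact this hy
      rw [f'in j hj _ h1, hφψ j hj]
    · push Not at h
      rw [g'out y h, f'out, hfg]
      intro j hj hgy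
      exact h j hj ⟨g y, hgy, hfg y⟩

end Pool.Agent.H895R3.QC
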