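import Mathlib
import Pool.Agent.H895R3.QC.Defs

set_option autoImplicit false

open MeasureTheory Filter Topology Set

namespace Pool.Agent.H895R3.QC

theorem glu_seg (S : Set ℂ) (hS : IsClosed S) (z w : ℂ) (hz : z ∈ S) (hw : w ∉ S) :
    ∃ z', z' ∈ frontier S ∧ z' ∈ S ∧ ‖z - z'‖ + ‖z' - w‖ = ‖z - w‖ := by
  have hp : IsPreconnected (segment ℝ z w) := (convex_segment z w).isPreconnected
  obtain ⟨z', h1, h2⟩ : ∃ z' ∈ segment ℝ z w, z' ∈ frontier S := by
    by_contra hcon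
    push Not at hcon
    have hint : ∀ x ∈ segment ℝ z w, x ∈ S → x ∈ interior S := by
      intro x hx hxS
      by_contra hxi
      exact hcon x hx ⟨subset_closure hxS, hxi⟩
    obtain ⟨x, _, hx1, hx2⟩ := hp (interior S) Sᶜ isOpen_interior hS.isOpen_compl
      (by
        intro x hx
        by_cases hxS : x ∈ S
        · exact Or.inl (hint x hx hxS)
        · exact Or.inr hxS)
      ⟨z, left_mem_segment ℝ z w, hint z (left_mem_segment ℝ z w) hz⟩
      ⟨w, right_mem_segment ℝ z w, hw⟩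
    exact hx2 (interior_subset hx1)
  refine ⟨z', h2, hS.frontier_subset h2, ?_⟩
  have := dist_add_dist_of_mem_segment h1
  simpa only [dist_eq_norm] using this

theorem t_GLU : S_GLU := by
  intro M f f' J C hM hC hdisj hf hf' hout hfr
  have key : ∀ i ∈ J, ∀ z ∈ C i, ∀ w, w ∉ C i → ∃ z', z' ∈ C i ∧ f' z' = f z' ∧
      ‖f' z - f' z'‖ ≤ M * ‖z - z'‖ ∧ ‖z - z'‖ + ‖z' - w‖ = ‖z - w‖ := by
    intro i hi z hz w hw
    obtain ⟨z', h1, h2, h3⟩ := glu_seg (C i) (hC i hi).1 z w hz hw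
    exact ⟨z', h2, hfr i hi z' h1, hf' i hi z hz z' h2, h3⟩
  have case2 : ∀ i ∈ J, ∀ z ∈ C i, ∀ w, (∀ j ∈ J, w ∉ C j) → ‖f' z - f' w‖ ≤ M * ‖z - w‖ := by
    intro i hi z hz w hw
    obtain ⟨z', _, h2, h3, h4⟩ := key i hi z hz w (hw i hi)
    have h5 : f' z - f' w = (f' z - f' z') + (f z' - f w) := by
      rw [h2, hout w hw]; ring
    rw [h5]
    refine (norm_add_le _ _).trans ?_
    have h6 := hf z' w
    calc ‖f' z - f' z'‖ + ‖f z' - f w‖ ≤ M * ‖z - z'‖ + M * ‖z' - w‖ := add_le_add h3 h6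
      _ = M * (‖z - z'‖ + ‖z' - w‖) := by ring
      _ = M * ‖z - w‖ := by rw [h4]
  intro z w
  by_cases hz : ∃ i ∈ J, z ∈ C i
  · obtain ⟨i, hi, hzi⟩ := hz
    by_cases hw : ∃ j ∈ J, w ∈ C j
    · obtain ⟨j, hj, hwj⟩ := hw
      by_cases hij : i = j
      · subst hij
        exact hf' i hi z hzi w hwj
      · have hwi : w ∉ C i := fun h => Set.disjoint_left.1 (hdisj i hi j hj hij) h hwj
        obtain ⟨z', h1, h2, h3, h4⟩ := key i hi z hzi w hwi
        have hz'j : z' ∉ C j := fun h => Set.disjoint_left.1 (hdisj i hi j hj hij) h1 h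
        obtain ⟨w', _, g2, g3, g4⟩ := key j hj w hwj z' hz'j
        have h5 : f' z - f' w = (f' z - f' z') + (f z' - f w') + (f' w' - f' w) := by
          rw [h2, g2]; ring
        rw [h5]
        refine (norm_add₃_le).trans ?_
        have h6 := hf z' w'
        have h7 : ‖f' w' - f' w‖ ≤ M * ‖w - w'‖ := by rw [norm_sub_rev]; exact g3
        have h8 : ‖z' - w'‖ = ‖w' - z'‖ := norm_sub_rev _ _
        have h9 : ‖z' - w‖ = ‖w - z'‖ := norm_sub_rev _ _
        calc ‖f' z - f' z'‖ + ‖f z' - f w'‖ + ‖f' w' - f' w‖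
            ≤ M * ‖z - z'‖ + M * ‖z' - w'‖ + M * ‖w - w'‖ := by
              gcongr
          _ = M * (‖z - z'‖ + (‖w - w'‖ + ‖w' - z'‖)) := by rw [h8]; ring
          _ = M * ‖z - w‖ := by rw [g4, ← h9, h4]
    · push Not at hw
      exact case2 i hi z hzi w hw
  · push Not at hz
    by_cases hw : ∃ j ∈ J, w ∈ C j
    · obtain ⟨j, hj, hwj⟩ := hw
      rw [norm_sub_rev, norm_sub_rev z w]
      exact case2 j hj w hwj z hz
    · push Not at hw
      rw [hout z hz, hout w hw]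
      exact hf z w

end Pool.Agent.H895R3.QC
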