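import Mathlib
import Pool.Agent.H895R3.QC.Defs

set_option autoImplicit false

open MeasureTheory Filter Topology Set

namespace Pool.Agent.H895R3.QC

theorem lim_init (hLIN : S_LIN) (U : Set V) (M m : ℝ) (F0 : V) (Q : Set ℂ) (hM : 0 < M)
    (hm : 0 < m) (hOk : Ok M m F0) (hF0 : F0 ∈ U) (hQ : IsOpen Q) :
    ∃ g : ℂ → ℂ, State U M (M / m) F0 Q (lin F0) g Q ∅ := by
  obtain ⟨h1, h2, h3, h4, h5, h6, h7, h8⟩ := hLIN
  have hdet : vdet F0 ≠ 0 := by
    have := hOk.2
    intro h0
    rw [h0] at this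
    linarith
  obtain ⟨g, hgl, hgr⟩ := Function.bijective_iff_has_inverse.1 (h7 F0 hdet)
  refine ⟨g, ?_, ?_, hgl, hgr, ?_, hQ, subset_rfl, ?_, isOpen_empty, ?_, ?_, ?_⟩
  · intro z w
    rw [← h3]
    exact (h6 M m F0 hM hm hOk (z - w)).1
  · intro z w
    have h := (h6 M m F0 hM hm hOk (g z - g w)).2
    rw [h3, hgr z, hgr w] at h
    exact h
  · intro z _
    rfl
  · intro z _
    exact ⟨F0, hF0, 0, Eventually.of_forall (fun w => by simp)⟩
  · intro z hz
    exact hz.elim
  · exact Set.empty_disjoint _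
  · simp

theorem lim_seq (U : Set V) (M K : ℝ) (F0 : V) (Q : Set ℂ) (g0 : ℂ → ℂ)
    (h0 : State U M K F0 Q (lin F0) g0 Q ∅) (hStep : StepP U M K F0 Q) :
    ∃ (f g : ℕ → ℂ → ℂ) (W O : ℕ → Set ℂ), (∀ n, State U M K F0 Q (f n) (g n) (W n) (O n)) ∧
      (∀ n z, ‖f (n + 1) z - f n z‖ ≤ (1 / 2 : ℝ) ^ n) ∧
      (∀ n z, z ∉ W n → f (n + 1) z = f n z) ∧ (∀ n, O n ⊆ O (n + 1)) ∧
      W 0 = Q ∧
      (∀ n, volume (W (n + 1)) ≤ ENNReal.ofReal (15 / 16) * volume (W n)) := by
  let T := {p : (ℂ → ℂ) × (ℂ → ℂ) × Set ℂ × Set ℂ //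
    State U M K F0 Q p.1 p.2.1 p.2.2.1 p.2.2.2}
  have key : ∀ (n : ℕ) (p : T), ∃ p' : T,
      (∀ z, ‖p'.1.1 z - p.1.1 z‖ ≤ (1 / 2 : ℝ) ^ n) ∧
      (∀ z, z ∉ p.1.2.2.1 → p'.1.1 z = p.1.1 z) ∧ p.1.2.2.2 ⊆ p'.1.2.2.2 ∧
      volume p'.1.2.2.1 ≤ ENNReal.ofReal (15 / 16) * volume p.1.2.2.1 := by
    intro n p
    obtain ⟨f', g', W', O', hS, ha, hb, hc, _, he⟩ :=
      hStep p.1.1 p.1.2.1 p.1.2.2.1 p.1.2.2.2 p.2 ((1 / 2 : ℝ) ^ n) (by positivity)
    exact ⟨⟨(f', g', W', O'), hS⟩, ha, hb, hc, he⟩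
  choose nxt hnxt using key
  let s : ℕ → T := fun n => Nat.rec ⟨(lin F0, g0, Q, ∅), h0⟩ (fun n p => nxt n p) n
  have hs : ∀ n, s (n + 1) = nxt n (s n) := fun n => rfl
  refine ⟨fun n => (s n).1.1, fun n => (s n).1.2.1, fun n => (s n).1.2.2.1,
    fun n => (s n).1.2.2.2, fun n => (s n).2, ?_, ?_, ?_, rfl, ?_⟩
  · intro n z
    have := (hnxt n (s n)).1 z
    simpa only [hs n] using this
  · intro n z hz
    have := (hnxt n (s n)).2.1 z hz
    simpa only [hs n] using this
  · intro n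
    have := (hnxt n (s n)).2.2.1
    simpa only [hs n] using this
  · intro n
    have := (hnxt n (s n)).2.2.2
    simpa only [hs n] using this

theorem t_LIM : S_LIM := by
  intro hLIN U M m F0 Q hM hm hU hF0 hQ hQv hStep
  have hK : 0 < M / m := by positivity
  obtain ⟨g0, hinit⟩ := lim_init hLIN U M m F0 Q hM hm (hU F0 hF0) hF0 hQ
  obtain ⟨f, g, W, O, hS, hfd, hfe, hO, hW0, hWv⟩ := lim_seq U M (M / m) F0 Q g0 hinit hStep
  generalize M / m = K at *
  have hfL : ∀ n z w, ‖f n z - f n w‖ ≤ M * ‖z - w‖ := fun n => (hS n).1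
  have hgL : ∀ n z w, ‖g n z - g n w‖ ≤ K * ‖z - w‖ := fun n => (hS n).2.1
  have hgf : ∀ n z, g n (f n z) = z := fun n => (hS n).2.2.1
  have hfg : ∀ n z, f n (g n z) = z := fun n => (hS n).2.2.2.1
  have hout : ∀ n z, z ∉ Q → f n z = lin F0 z := fun n => (hS n).2.2.2.2.1
  -- limit of f
  have hfdist : ∀ z n, dist (f n z) (f (n + 1) z) ≤ 1 * (1 / 2 : ℝ) ^ n := by
    intro z n
    rw [dist_comm, dist_eq_norm, one_mul]
    exact hfd n z
  have hfc : ∀ z, ∃ a, Tendsto (fun n => f n z) atTop (𝓝 a) := fun z =>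
    cauchySeq_tendsto_of_complete
      (cauchySeq_of_le_geometric (1 / 2 : ℝ) 1 (by norm_num) (hfdist z))
  choose F hF using hfc
  have hgdist : ∀ z n, dist (g n z) (g (n + 1) z) ≤ K * (1 / 2 : ℝ) ^ n := by
    intro z n
    have e1 : g (n + 1) z - g n z = g (n + 1) (f n (g n z)) - g (n + 1) (f (n + 1) (g n z)) := by
      rw [hfg n z, hgf (n + 1)]
    rw [dist_comm, dist_eq_norm, e1]
    refine (hgL (n + 1) _ _).trans ?_
    refine mul_le_mul_of_nonneg_left ?_ hK.le
    rw [norm_sub_rev]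
    exact hfd n _
  have hgc : ∀ z, ∃ a, Tendsto (fun n => g n z) atTop (𝓝 a) := fun z =>
    cauchySeq_tendsto_of_complete
      (cauchySeq_of_le_geometric (1 / 2 : ℝ) K (by norm_num) (hgdist z))
  choose G hG using hgc
  refine ⟨F, G, ?_, ?_, ?_, ?_, ?_, ?_⟩
  · intro z w
    refine le_of_tendsto ((hF z).sub (hF w)).norm (Eventually.of_forall fun n => hfL n z w)
  · intro z w
    refine le_of_tendsto ((hG z).sub (hG w)).norm (Eventually.of_forall fun n => hgL n z w)
  · intro z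
    have t1 : Tendsto (fun n => g n (F z)) atTop (𝓝 z) := by
      rw [tendsto_iff_norm_sub_tendsto_zero]
      have t2 : Tendsto (fun n => K * ‖F z - f n z‖) atTop (𝓝 0) := by
        have := ((tendsto_const_nhds (x := F z)).sub (hF z)).norm.const_mul K
        simpa using this
      refine squeeze_zero (fun n => norm_nonneg _) (fun n => ?_) t2
      calc ‖g n (F z) - z‖ = ‖g n (F z) - g n (f n z)‖ := by rw [hgf n z]
        _ ≤ K * ‖F z - f n z‖ := hgL n _ _
    exact tendsto_nhds_unique (hG (F z)) t1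
  · intro z
    have t1 : Tendsto (fun n => f n (G z)) atTop (𝓝 z) := by
      rw [tendsto_iff_norm_sub_tendsto_zero]
      have t2 : Tendsto (fun n => M * ‖G z - g n z‖) atTop (𝓝 0) := by
        have := ((tendsto_const_nhds (x := G z)).sub (hG z)).norm.const_mul M
        simpa using this
      refine squeeze_zero (fun n => norm_nonneg _) (fun n => ?_) t2
      calc ‖f n (G z) - z‖ = ‖f n (G z) - f n (g n z)‖ := by rw [hfg n z]
        _ ≤ M * ‖G z - g n z‖ := hfL n _ _
    exact tendsto_nhds_unique (hF (G z)) t1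
  · intro z hz
    refine tendsto_nhds_unique (hF z) ?_
    simp only [hout _ z hz]
    exact tendsto_const_nhds
  · -- almost everywhere
    have hOmono : ∀ n k, O n ⊆ O (n + k) := by
      intro n k
      induction k with
      | zero => exact subset_rfl
      | succ k ih => exact ih.trans (hO (n + k))
    have hstab : ∀ n k z, z ∈ O n → f (n + k) z = f n z := by
      intro n k
      induction k with
      | zero => intro z _; rfl
      | succ k ih =>
        intro z hz
        have hzk : z ∉ W (n + k) := by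
          intro hzW
          exact Set.disjoint_left.1 (hS (n + k)).2.2.2.2.2.2.2.2.2.2.1 (hOmono n k hz) hzW
        have := hfe (n + k) z hzk
        rw [← ih z hz, ← this]
        rfl
    have hlimO : ∀ n z, z ∈ O n → F z = f n z := by
      intro n z hz
      refine tendsto_nhds_unique (hF z) ?_
      refine tendsto_const_nhds.congr' ?_
      filter_upwards [eventually_ge_atTop n] with k hk
      obtain ⟨j, rfl⟩ := Nat.exists_eq_add_of_le hk
      exact (hstab n j z hz).symm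
    have hloc : ∀ n z, z ∈ O n → LocL F z := by
      intro n z hz
      have hop : IsOpen (O n) := (hS n).2.2.2.2.2.2.2.2.1
      obtain ⟨B, hB, c, hc⟩ := (hS n).2.2.2.2.2.2.2.2.2.1 z hz
      refine ⟨B, hB, c, ?_⟩
      filter_upwards [hc, hop.mem_nhds hz] with w hw hwO
      rw [hlimO n w hwO, hw]
    have hWb : ∀ n, volume (W n) ≤ ENNReal.ofReal (15 / 16) ^ n * volume Q := by
      intro n
      induction n with
      | zero => simp [hW0]
      | succ n ih =>
        refine (hWv n).trans ?_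
        rw [pow_succ', mul_assoc]
        gcongr
    have hzero : volume (Q \ ⋃ n, O n) = 0 := by
      have hle : ∀ n, volume (Q \ ⋃ n, O n) ≤ ENNReal.ofReal (15 / 16) ^ n * volume Q := by
        intro n
        have hsub : (Q \ ⋃ n, O n) ⊆ (Q \ (O n ∪ W n)) ∪ W n := by
          intro z hz
          by_cases hzW : z ∈ W n
          · exact Or.inr hzW
          · refine Or.inl ⟨hz.1, ?_⟩
            rintro (h | h)
            · exact hz.2 (Set.mem_iUnion.2 ⟨n, h⟩)
            · exact hzW h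
        calc volume (Q \ ⋃ n, O n) ≤ volume ((Q \ (O n ∪ W n)) ∪ W n) := measure_mono hsub
          _ ≤ volume (Q \ (O n ∪ W n)) + volume (W n) := measure_union_le _ _
          _ = volume (W n) := by rw [(hS n).2.2.2.2.2.2.2.2.2.2.2, zero_add]
          _ ≤ _ := hWb n
      have hlt : ENNReal.ofReal (15 / 16) < 1 := by
        rw [ENNReal.ofReal_lt_one]
        norm_num
      have htend : Tendsto (fun n => ENNReal.ofReal (15 / 16) ^ n * volume Q) atTop (𝓝 0) := by
        have := ENNReal.Tendsto.mul_const (ENNReal.tendsto_pow_atTop_nhds_zero_of_lt_one hlt)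
          (Or.inr hQv)
        simpa using this
      exact le_antisymm (ge_of_tendsto' htend hle) zero_le
    rw [ae_restrict_iff' hQ.measurableSet]
    have : ∀ᵐ z ∂(volume : Measure ℂ), z ∉ Q \ ⋃ n, O n := measure_eq_zero_iff_ae_notMem.1 hzero
    filter_upwards [this] with z hz hzQ
    have : z ∈ ⋃ n, O n := by
      by_contra h
      exact hz ⟨hzQ, h⟩
    obtain ⟨n, hn⟩ := Set.mem_iUnion.1 this
    exact hloc n z hn

end Pool.Agent.H895R3.QC
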