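import Mathlib
import Pool.Agent.H895R3.QC.Defs

set_option autoImplicit false

open MeasureTheory Filter Topology Set

namespace Pool.Agent.H895R3.QC

theorem lin_nsq (z : ℂ) : ‖z‖ ^ 2 = z.re ^ 2 + z.im ^ 2 := by
  rw [← Complex.normSq_eq_norm_sq, Complex.normSq_apply]
  ring

theorem lin_aux1 (F : V) (z : ℂ) : ‖lin F z‖ ^ 2 ≤ vsq F * ‖z‖ ^ 2 := by
  obtain ⟨a, b, c, d⟩ := F
  rw [lin_nsq, lin_nsq]
  simp only [lin, vsq]
  nlinarith [sq_nonneg (a * z.im - b * z.re), sq_nonneg (c * z.im - d * z.re)]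

theorem lin_aux2 (F : V) (z : ℂ) : vdet F ^ 2 * ‖z‖ ^ 2 ≤ vsq F * ‖lin F z‖ ^ 2 := by
  obtain ⟨a, b, c, d⟩ := F
  rw [lin_nsq, lin_nsq]
  simp only [lin, vsq, vdet]
  set x := z.re
  set y := z.im
  nlinarith [sq_nonneg (a * (a * x + b * y) + c * (c * x + d * y)),
    sq_nonneg (b * (a * x + b * y) + d * (c * x + d * y))]

theorem t_LIN : S_LIN := by
  refine ⟨?_, ?_, ?_, ?_, ?_, ?_, ?_, ?_⟩
  · intro F t x n z
    apply Complex.ext
    · simp only [lin, rk, dot, Complex.add_re, Complex.re_ofReal_mul]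
      ring
    · simp only [lin, rk, dot, Complex.add_im, Complex.im_ofReal_mul]
      ring
  · intro F z w
    apply Complex.ext
    · simp only [lin, Complex.add_re, Complex.add_im]
      ring
    · simp only [lin, Complex.add_re, Complex.add_im]
      ring
  · intro F z w
    apply Complex.ext
    · simp only [lin, Complex.sub_re, Complex.sub_im]
      ring
    · simp only [lin, Complex.sub_re, Complex.sub_im]
      ring
  · intro F r z
    apply Complex.ext
    · simp only [lin, Complex.re_ofReal_mul, Complex.im_ofReal_mul]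
      ring
    · simp only [lin, Complex.re_ofReal_mul, Complex.im_ofReal_mul]
      ring
  · intro F
    have h : lin F = fun z => ((F.1 * z.re + F.2.1 * z.im : ℝ) : ℂ) +
        ((F.2.2.1 * z.re + F.2.2.2 * z.im : ℝ) : ℂ) * Complex.I := by
      funext z
      apply Complex.ext <;> simp [lin]
    rw [h]
    have h1 : Continuous (fun z : ℂ => (F.1 * z.re + F.2.1 * z.im : ℝ)) :=
      (continuous_const.mul Complex.continuous_re).add (continuous_const.mul Complex.continuous_im)
    have h2 : Continuous (fun z : ℂ => (F.2.2.1 * z.re + F.2.2.2 * z.im : ℝ)) :=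
      (continuous_const.mul Complex.continuous_re).add (continuous_const.mul Complex.continuous_im)
    exact (Complex.continuous_ofReal.comp h1).add
      ((Complex.continuous_ofReal.comp h2).mul continuous_const)
  · intro M m F hM hm hF z
    obtain ⟨h1, h2⟩ := hF
    have hz := norm_nonneg z
    have hlz := norm_nonneg (lin F z)
    constructor
    · have h3 := lin_aux1 F z
      have h4 : ‖lin F z‖ ^ 2 ≤ (M * ‖z‖) ^ 2 := by
        rw [mul_pow]
        exact h3.trans (mul_le_mul_of_nonneg_right h1 (sq_nonneg _))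
      exact (abs_le_of_sq_le_sq' h4 (by positivity)).2
    · have h3 := lin_aux2 F z
      have h4 : (m * ‖z‖) ^ 2 ≤ (M * ‖lin F z‖) ^ 2 := by
        rw [mul_pow, mul_pow]
        have h5 : m ^ 2 ≤ vdet F ^ 2 := pow_le_pow_left₀ hm.le h2 2
        calc m ^ 2 * ‖z‖ ^ 2 ≤ vdet F ^ 2 * ‖z‖ ^ 2 := mul_le_mul_of_nonneg_right h5 (sq_nonneg _)
          _ ≤ vsq F * ‖lin F z‖ ^ 2 := h3
          _ ≤ M ^ 2 * ‖lin F z‖ ^ 2 := mul_le_mul_of_nonneg_right h1 (sq_nonneg _)
      have h6 := (abs_le_of_sq_le_sq' h4 (by positivity)).2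
      rw [div_mul_eq_mul_div, le_div_iff₀ hm]
      linarith
  · intro F hF
    constructor
    · intro z w hzw
      have h3 := lin_aux2 F (z - w)
      have h4 : lin F (z - w) = 0 := by
        have h5 : lin F (z - w) = lin F z - lin F w := by
          apply Complex.ext
          · simp only [lin, Complex.sub_re, Complex.sub_im]
            ring
          · simp only [lin, Complex.sub_re, Complex.sub_im]
            ring
        rw [h5, hzw, sub_self]
      rw [h4, norm_zero] at h3
      have h5 : 0 < vdet F ^ 2 := by positivity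
      have h6 : ‖z - w‖ ^ 2 ≤ 0 := by
        by_contra hcon
        push Not at hcon
        have := mul_pos h5 hcon
        simp at h3
        linarith
      have h7 : ‖z - w‖ = 0 := by
        have := sq_nonneg ‖z - w‖
        exact pow_eq_zero_iff (n := 2) (by norm_num) |>.1 (le_antisymm h6 this)
      exact sub_eq_zero.1 (norm_eq_zero.1 h7)
    · intro w
      refine ⟨⟨(F.2.2.2 * w.re - F.2.1 * w.im) / vdet F, (-F.2.2.1 * w.re + F.1 * w.im) / vdet F⟩, ?_⟩
      have h8 : vdet F = F.1 * F.2.2.2 - F.2.1 * F.2.2.1 := rfl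
      apply Complex.ext
      · simp only [lin]
        field_simp
        rw [h8]
        ring
      · simp only [lin]
        field_simp
        rw [h8]
        ring
  · intro M m F t s x n hs0 hs1 hF hG
    obtain ⟨a, b, c, d⟩ := F
    obtain ⟨h1, h2⟩ := hF
    obtain ⟨h3, h4⟩ := hG
    simp only [Ok, vsq, vdet, rk] at h1 h2 h3 h4 ⊢
    constructor
    · nlinarith [mul_nonneg hs0 (sub_nonneg.2 hs1),
        mul_nonneg (mul_nonneg hs0 (sub_nonneg.2 hs1)) (sq_nonneg (t * (x.re * n.re))),
        mul_nonneg (mul_nonneg hs0 (sub_nonneg.2 hs1)) (sq_nonneg (t * (x.re * n.im))),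
        mul_nonneg (mul_nonneg hs0 (sub_nonneg.2 hs1)) (sq_nonneg (t * (x.im * n.re))),
        mul_nonneg (mul_nonneg hs0 (sub_nonneg.2 hs1)) (sq_nonneg (t * (x.im * n.im))),
        mul_le_mul_of_nonneg_left h1 (sub_nonneg.2 hs1), mul_le_mul_of_nonneg_left h3 hs0]
    · nlinarith [mul_le_mul_of_nonneg_left h2 (sub_nonneg.2 hs1), mul_le_mul_of_nonneg_left h4 hs0]

end Pool.Agent.H895R3.QC
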