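import Mathlib
import Pool.Agent.H895R3.QC.Defs

set_option autoImplicit false

namespace Pool.Agent.H895R3.QC

theorem mv_aux (p1 p2 p3 p4 q1 q2 q3 q4 D : ℝ) (hD : 0 ≤ D) (h1 : q1 ≤ p1 + D)
    (h2 : q2 ≤ p2 + D) (h3 : q3 ≤ p3 + D) (h4 : q4 ≤ p4 + D) :
    max 0 (min (min q1 q2) (min q3 q4)) - max 0 (min (min p1 p2) (min p3 p4)) ≤ D := by
  rw [sub_le_iff_le_add]
  apply max_le
  · have := le_max_left 0 (min (min p1 p2) (min p3 p4))
    linarith
  · have e1 : min (min q1 q2) (min q3 q4) ≤ q1 := (min_le_left _ _).trans (min_le_left _ _)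
    have e2 : min (min q1 q2) (min q3 q4) ≤ q2 := (min_le_left _ _).trans (min_le_right _ _)
    have e3 : min (min q1 q2) (min q3 q4) ≤ q3 := (min_le_right _ _).trans (min_le_left _ _)
    have e4 : min (min q1 q2) (min q3 q4) ≤ q4 := (min_le_right _ _).trans (min_le_right _ _)
    have e5 : min (min q1 q2) (min q3 q4) - D ≤ min (min p1 p2) (min p3 p4) :=
      le_min (le_min (by linarith) (by linarith)) (le_min (by linarith) (by linarith))
    have e6 := le_max_right 0 (min (min p1 p2) (min p3 p4))
    linarith

theorem t_MV : S_MV := by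
  intro l u v u' v' hl0 hl1
  constructor
  · unfold roof
    set A := (1 - l) * (u' - u) with hA
    set B := -l * (u' - u) with hB
    set C := 8 * (v' - v) with hC
    have a0 : 0 ≤ max 0 (max (max A B) (max C (-C))) := le_max_left _ _
    have a1 : A ≤ max 0 (max (max A B) (max C (-C))) :=
      ((le_max_left _ _).trans (le_max_left _ _)).trans (le_max_right _ _)
    have a2 : B ≤ max 0 (max (max A B) (max C (-C))) :=
      ((le_max_right _ _).trans (le_max_left _ _)).trans (le_max_right _ _)
    have a3 : C ≤ max 0 (max (max A B) (max C (-C))) :=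
      ((le_max_left _ _).trans (le_max_right _ _)).trans (le_max_right _ _)
    have a4 : -C ≤ max 0 (max (max A B) (max C (-C))) :=
      ((le_max_right _ _).trans (le_max_right _ _)).trans (le_max_right _ _)
    refine mv_aux _ _ _ _ _ _ _ _ _ a0 ?_ ?_ ?_ ?_
    · have : (1 - l) * u' = (1 - l) * u + A := by rw [hA]; ring
      linarith
    · have : l * (1 - u') = l * (1 - u) + B := by rw [hB]; ring
      linarith
    · have : 8 * v' = 8 * v + C := by rw [hC]; ring
      linarith
    · have : 8 * (1 - v') = 8 * (1 - v) + -C := by rw [hC]; ring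
      linarith
  · unfold roof
    set A := (1 - l) * (u' - u) with hA
    set B := -l * (u' - u) with hB
    set C := 8 * (v' - v) with hC
    have a0 : min 0 (min (min A B) (min C (-C))) ≤ 0 := min_le_left _ _
    have a1 : min 0 (min (min A B) (min C (-C))) ≤ A :=
      (min_le_right _ _).trans ((min_le_left _ _).trans (min_le_left _ _))
    have a2 : min 0 (min (min A B) (min C (-C))) ≤ B :=
      (min_le_right _ _).trans ((min_le_left _ _).trans (min_le_right _ _))
    have a3 : min 0 (min (min A B) (min C (-C))) ≤ C :=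
      (min_le_right _ _).trans ((min_le_right _ _).trans (min_le_left _ _))
    have a4 : min 0 (min (min A B) (min C (-C))) ≤ -C :=
      (min_le_right _ _).trans ((min_le_right _ _).trans (min_le_right _ _))
    have key := mv_aux ((1 - l) * u') (l * (1 - u')) (8 * v') (8 * (1 - v'))
      ((1 - l) * u) (l * (1 - u)) (8 * v) (8 * (1 - v))
      (-(min 0 (min (min A B) (min C (-C))))) (by linarith) ?_ ?_ ?_ ?_
    · linarith
    · have : (1 - l) * u' = (1 - l) * u + A := by rw [hA]; ring
      linarith
    · have : l * (1 - u') = l * (1 - u) + B := by rw [hB]; ring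
      linarith
    · have : 8 * v' = 8 * v + C := by rw [hC]; ring
      linarith
    · have : 8 * (1 - v') = 8 * (1 - v) + -C := by rw [hC]; ring
      linarith

end Pool.Agent.H895R3.QC
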