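import Mathlib
import Pool.Agent.H895R3.QC.Defs

set_option autoImplicit false

open MeasureTheory Filter Topology Set

namespace Pool.Agent.H895R3.QC

/-- the parameter `t` as a function of the matrix -/
noncomputable def opn_T (F : V) : ℝ :=
  4 - 5 * Real.sqrt (-(F.2.1 * F.2.2.1) / (F.1 * F.2.2.2 - F.2.1 * F.2.2.1))

/-- explicit description of `U1` -/
def opn_E (F : V) : Prop :=
  0 < F.1 ∧ F.2.1 < 0 ∧ 0 < F.2.2.1 ∧ 0 < F.2.2.2 ∧
  1 / 2 < opn_T F ∧ opn_T F < 2 ∧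
  199 / 200 * (6 + 6 * opn_T F) < F.1 ∧ F.1 < 201 / 200 * (6 + 6 * opn_T F) ∧
  199 / 200 * (12 - 3 * opn_T F) < -F.2.1 ∧ -F.2.1 < 201 / 200 * (12 - 3 * opn_T F) ∧
  199 / 200 * (8 - 2 * opn_T F) < F.2.2.1 ∧ F.2.2.1 < 201 / 200 * (8 - 2 * opn_T F) ∧
  199 / 200 * (9 - opn_T F) < F.2.2.2 ∧ F.2.2.2 < 201 / 200 * (9 - opn_T F)

theorem opn_fwd (F : V) (h : U1 F) : opn_E F := by
  obtain ⟨t, p, q, r, s, ht1, ht2, hp1, hp2, hq1, hq2, hr1, hr2, hs1, hs2, hD, rfl⟩ := h
  have hps : 0 < p * s := by nlinarith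
  have hT : opn_T (p * (6 + 6 * t), -(q * (12 - 3 * t)), r * (8 - 2 * t), s * (9 - t)) = t := by
    have h1 : -(-(q * (12 - 3 * t)) * (r * (8 - 2 * t))) /
        (p * (6 + 6 * t) * (s * (9 - t)) - -(q * (12 - 3 * t)) * (r * (8 - 2 * t)))
        = ((4 - t) / 5) ^ 2 := by
      have hden : p * (6 + 6 * t) * (s * (9 - t)) - -(q * (12 - 3 * t)) * (r * (8 - 2 * t))
          = 150 * (p * s) := by
        have : p * (6 + 6 * t) * (s * (9 - t)) - -(q * (12 - 3 * t)) * (r * (8 - 2 * t))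
          = (p * s) * ((6 + 6 * t) * (9 - t)) + (q * r) * ((12 - 3 * t) * (8 - 2 * t)) := by ring
        rw [this, ← hD]
        ring
      have hnum : -(-(q * (12 - 3 * t)) * (r * (8 - 2 * t))) = (p * s) * (6 * (4 - t) ^ 2) := by
        rw [hD]
        ring
      rw [hden, hnum]
      field_simp
      ring
    unfold opn_T
    simp only
    rw [h1, Real.sqrt_sq (by linarith)]
    ring
  unfold opn_E
  rw [hT]
  simp only
  refine ⟨by nlinarith, by nlinarith, by nlinarith, by nlinarith, ht1, ht2, ?_, ?_, ?_, ?_,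
    ?_, ?_, ?_, ?_⟩
  · exact mul_lt_mul_of_pos_right hp1 (by linarith)
  · exact mul_lt_mul_of_pos_right hp2 (by linarith)
  · rw [neg_neg]; exact mul_lt_mul_of_pos_right hq1 (by linarith)
  · rw [neg_neg]; exact mul_lt_mul_of_pos_right hq2 (by linarith)
  · exact mul_lt_mul_of_pos_right hr1 (by linarith)
  · exact mul_lt_mul_of_pos_right hr2 (by linarith)
  · exact mul_lt_mul_of_pos_right hs1 (by linarith)
  · exact mul_lt_mul_of_pos_right hs2 (by linarith)

theorem opn_bwd (F : V) (h : opn_E F) : U1 F := by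
  obtain ⟨a, b, c, d⟩ := F
  obtain ⟨ha, hb, hc, hd, ht1, ht2, hp1, hp2, hq1, hq2, hr1, hr2, hs1, hs2⟩ := h
  have hT : opn_T (a, b, c, d) = 4 - 5 * Real.sqrt (-(b * c) / (a * d - b * c)) := rfl
  simp only at ha hb hc hd hp1 hp2 hq1 hq2 hr1 hr2 hs1 hs2
  set t := opn_T (a, b, c, d) with ht
  have hbc : 0 < -(b * c) := by nlinarith
  have had : 0 < a * d := mul_pos ha hd
  have hN : 0 < a * d - b * c := by linarith
  have hsq : Real.sqrt (-(b * c) / (a * d - b * c)) ^ 2 = -(b * c) / (a * d - b * c) :=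
    Real.sq_sqrt (div_nonneg hbc.le hN.le)
  have h4 : (4 - t) ^ 2 * (a * d - b * c) = 25 * (-(b * c)) := by
    have h5 : 4 - t = 5 * Real.sqrt (-(b * c) / (a * d - b * c)) := by rw [hT]; ring
    rw [h5, mul_pow, hsq]
    field_simp
    ring
  have h6 : a * d * (4 - t) ^ 2 = -(b * c) * ((1 + t) * (9 - t)) := by
    have h7 : (a * d - b * c) * (a * d * (4 - t) ^ 2)
        = (a * d - b * c) * (-(b * c) * ((1 + t) * (9 - t))) := by
      have h8 : (1 + t) * (9 - t) * (a * d - b * c) = 25 * (a * d) := by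
        have h9 : (1 + t) * (9 - t) = 25 - (4 - t) ^ 2 := by ring
        rw [h9, sub_mul, h4]
        ring
      calc (a * d - b * c) * (a * d * (4 - t) ^ 2)
          = a * d * ((4 - t) ^ 2 * (a * d - b * c)) := by ring
        _ = a * d * (25 * (-(b * c))) := by rw [h4]
        _ = -(b * c) * (25 * (a * d)) := by ring
        _ = -(b * c) * ((1 + t) * (9 - t) * (a * d - b * c)) := by rw [h8]
        _ = _ := by ring
    exact mul_left_cancel₀ hN.ne' h7
  have e1 : 0 < 6 + 6 * t := by linarith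
  have e2 : 0 < 12 - 3 * t := by linarith
  have e3 : 0 < 8 - 2 * t := by linarith
  have e4 : 0 < 9 - t := by linarith
  refine ⟨t, a / (6 + 6 * t), -b / (12 - 3 * t), c / (8 - 2 * t), d / (9 - t), ht1, ht2,
    (lt_div_iff₀ e1).2 hp1, (div_lt_iff₀ e1).2 hp2, (lt_div_iff₀ e2).2 hq1,
    (div_lt_iff₀ e2).2 hq2, (lt_div_iff₀ e3).2 hr1, (div_lt_iff₀ e3).2 hr2,
    (lt_div_iff₀ e4).2 hs1, (div_lt_iff₀ e4).2 hs2, ?_, ?_⟩
  · rw [div_mul_div_comm, div_mul_div_comm, div_eq_div_iff (mul_pos e1 e4).ne' (mul_pos e2 e3).ne']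
    nlinarith [h6]
  · rw [div_mul_cancel₀ _ e1.ne', div_mul_cancel₀ _ e2.ne', div_mul_cancel₀ _ e3.ne',
      div_mul_cancel₀ _ e4.ne', neg_neg]

theorem opn_cont (F : V) (h : opn_E F) : ContinuousAt opn_T F := by
  obtain ⟨ha, hb, hc, hd, -⟩ := h
  have hN : F.1 * F.2.2.2 - F.2.1 * F.2.2.1 ≠ 0 := by
    have := mul_pos ha hd
    nlinarith
  unfold opn_T
  have h1 : ContinuousAt (fun F : V => F.1 * F.2.2.2 - F.2.1 * F.2.2.1) F := by fun_prop
  have h2 : ContinuousAt (fun F : V => -(F.2.1 * F.2.2.1)) F := by fun_prop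
  have h3 := h2.div h1 hN
  have h4 : ContinuousAt (fun F : V =>
      Real.sqrt (-(F.2.1 * F.2.2.1) / (F.1 * F.2.2.2 - F.2.1 * F.2.2.1))) F :=
    Real.continuous_sqrt.continuousAt.comp h3
  exact continuousAt_const.sub (continuousAt_const.mul h4)

theorem t_OPN : S_OPN := by
  unfold S_OPN
  have hset : {F : V | U1 F} = {F : V | opn_E F} := by
    ext F
    exact ⟨opn_fwd F, opn_bwd F⟩
  rw [hset, isOpen_iff_mem_nhds]
  intro F hF
  have hT := opn_cont F hF
  have hF' := hF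
  obtain ⟨h1, h2, h3, h4, h5, h6, h7, h8, h9, h10, h11, h12, h13, h14⟩ := hF
  have c1 : ContinuousAt (fun F : V => F.1) F := by fun_prop
  have c2 : ContinuousAt (fun F : V => F.2.1) F := by fun_prop
  have c3 : ContinuousAt (fun F : V => F.2.2.1) F := by fun_prop
  have c4 : ContinuousAt (fun F : V => F.2.2.2) F := by fun_prop
  have cc : ∀ r : ℝ, ContinuousAt (fun _ : V => r) F := fun r => continuousAt_const
  have d1 : ∀ r : ℝ, ContinuousAt (fun F : V => r * (6 + 6 * opn_T F)) F := fun r =>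
    (cc r).mul ((cc 6).add ((cc 6).mul hT))
  have d2 : ∀ r : ℝ, ContinuousAt (fun F : V => r * (12 - 3 * opn_T F)) F := fun r =>
    (cc r).mul ((cc 12).sub ((cc 3).mul hT))
  have d3 : ∀ r : ℝ, ContinuousAt (fun F : V => r * (8 - 2 * opn_T F)) F := fun r =>
    (cc r).mul ((cc 8).sub ((cc 2).mul hT))
  have d4 : ∀ r : ℝ, ContinuousAt (fun F : V => r * (9 - opn_T F)) F := fun r =>
    (cc r).mul ((cc 9).sub hT)
  filter_upwards [(cc 0).eventually_lt c1 h1, c2.eventually_lt (cc 0) h2,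
    (cc 0).eventually_lt c3 h3, (cc 0).eventually_lt c4 h4,
    (cc (1 / 2)).eventually_lt hT h5, hT.eventually_lt (cc 2) h6,
    (d1 _).eventually_lt c1 h7, c1.eventually_lt (d1 _) h8,
    (d2 _).eventually_lt c2.neg h9, c2.neg.eventually_lt (d2 _) h10,
    (d3 _).eventually_lt c3 h11, c3.eventually_lt (d3 _) h12,
    (d4 _).eventually_lt c4 h13, c4.eventually_lt (d4 _) h14]
    with F' k1 k2 k3 k4 k5 k6 k7 k8 k9 k10 k11 k12 k13 k14
  exact ⟨k1, k2, k3, k4, k5, k6, k7, k8, k9, k10, k11, k12, k13, k14⟩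

end Pool.Agent.H895R3.QC
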