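import Mathlib
import Pool.Agent.H895R3.QC.Defs

set_option autoImplicit false

open MeasureTheory Filter Topology Set

namespace Pool.Agent.H895R3.QC

theorem pcs_unique (A A' : V) (c c' z : ℂ)
    (h : ∀ᶠ w in 𝓝 z, lin A w + c = lin A' w + c') : A = A' ∧ c = c' := by
  obtain ⟨ε, hε, hb⟩ := Metric.eventually_nhds_iff.1 h
  have h0 := hb (y := z) (by simpa using hε)
  have h1 := hb (y := z + ((ε / 2 : ℝ) : ℂ)) (by
    rw [dist_eq_norm, add_sub_cancel_left, Complex.norm_real, Real.norm_eq_abs,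
      abs_of_pos (by linarith)]
    linarith)
  have h2 := hb (y := z + ((ε / 2 : ℝ) : ℂ) * Complex.I) (by
    rw [dist_eq_norm, add_sub_cancel_left, norm_mul, Complex.norm_I, mul_one, Complex.norm_real,
      Real.norm_eq_abs, abs_of_pos (by linarith)]
    linarith)
  have r0 := congrArg Complex.re h0
  have i0 := congrArg Complex.im h0
  have r1 := congrArg Complex.re h1
  have i1 := congrArg Complex.im h1
  have r2 := congrArg Complex.re h2
  have i2 := congrArg Complex.im h2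
  simp only [lin, Complex.add_re, Complex.add_im, Complex.mul_re, Complex.mul_im,
    Complex.ofReal_re, Complex.ofReal_im, Complex.I_re, Complex.I_im, mul_zero, mul_one,
    zero_mul, sub_zero, add_zero, zero_add, sub_self] at r0 i0 r1 i1 r2 i2
  have hε2 : ε / 2 ≠ 0 := by positivity
  have a1 : A.1 = A'.1 := by
    apply mul_right_cancel₀ hε2
    linear_combination r1 - r0
  have a2 : A.2.1 = A'.2.1 := by
    apply mul_right_cancel₀ hε2
    linear_combination r2 - r0
  have a3 : A.2.2.1 = A'.2.2.1 := by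
    apply mul_right_cancel₀ hε2
    linear_combination i1 - i0
  have a4 : A.2.2.2 = A'.2.2.2 := by
    apply mul_right_cancel₀ hε2
    linear_combination i2 - i0
  have hA : A = A' := by
    apply Prod.ext a1
    apply Prod.ext a2
    apply Prod.ext a3 a4
  refine ⟨hA, ?_⟩
  subst hA
  exact add_left_cancel h0

/-- the pieces -/
def pcsP (U : Set V) (f : ℂ → ℂ) (W : Set ℂ) (p : V × ℂ) : Set ℂ :=
  {z | z ∈ W ∧ p.1 ∈ U ∧ ∀ᶠ w in 𝓝 z, f w = lin p.1 w + p.2}

theorem pcs_open (U : Set V) (f : ℂ → ℂ) (W : Set ℂ) (hW : IsOpen W) (p : V × ℂ) :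
    IsOpen (pcsP U f W p) := by
  by_cases hp : p.1 ∈ U
  · have h1 : pcsP U f W p = W ∩ {z | ∀ᶠ w in 𝓝 z, f w = lin p.1 w + p.2} := by
      ext z
      constructor
      · rintro ⟨hz, _, h⟩; exact ⟨hz, h⟩
      · rintro ⟨hz, h⟩; exact ⟨hz, hp, h⟩
    rw [h1]
    exact hW.inter isOpen_setOfPred_eventually_nhds
  · have h1 : pcsP U f W p = ∅ := by
      ext z
      constructor
      · rintro ⟨_, h, _⟩; exact absurd h hp
      · intro h; exact absurd h (Set.notMem_empty z)
    rw [h1]; exact isOpen_empty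

theorem pcs_eq (U : Set V) (f : ℂ → ℂ) (W : Set ℂ) (p p' : V × ℂ) (z : ℂ)
    (h : z ∈ pcsP U f W p) (h' : z ∈ pcsP U f W p') : p = p' := by
  obtain ⟨_, _, h1⟩ := h
  obtain ⟨_, _, h2⟩ := h'
  have h3 : ∀ᶠ w in 𝓝 z, lin p.1 w + p.2 = lin p'.1 w + p'.2 := by
    filter_upwards [h1, h2] with w hw1 hw2
    rw [← hw1, ← hw2]
  obtain ⟨h4, h5⟩ := pcs_unique _ _ _ _ _ h3
  exact Prod.ext h4 h5

theorem t_PCS : S_PCS := by
  classical
  intro U f W hW hL
  set S : Set (V × ℂ) := {p | (pcsP U f W p).Nonempty} with hS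
  have hc : S.Countable := by
    apply Set.PairwiseDisjoint.countable_of_isOpen (s := fun p => pcsP U f W p)
    · intro p _ p' _ hpp
      rw [Function.onFun, Set.disjoint_left]
      intro z h1 h2
      exact hpp (pcs_eq U f W p p' z h1 h2)
    · intro p _; exact pcs_open U f W hW p
    · intro p hp; exact hp
  obtain ⟨g, hg⟩ := Set.countable_iff_exists_injOn.1 hc
  refine ⟨fun k => ⋃ p ∈ {p | p ∈ S ∧ g p = k}, pcsP U f W p,
    fun k => if h : ∃ p, p ∈ S ∧ g p = k then h.choose.1 else (0, 0, 0, 0),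
    fun k => if h : ∃ p, p ∈ S ∧ g p = k then h.choose.2 else 0, ?_, ?_, ?_, ?_⟩
  · intro k
    exact isOpen_biUnion (fun p _ => pcs_open U f W hW p)
  · intro i j hij
    rw [Set.disjoint_left]
    intro z h1 h2
    simp only [Set.mem_iUnion, Set.mem_ofPred_eq, exists_prop] at h1 h2
    obtain ⟨p, ⟨_, hp⟩, hz⟩ := h1
    obtain ⟨p', ⟨_, hp'⟩, hz'⟩ := h2
    apply hij
    rw [← hp, ← hp', pcs_eq U f W p p' z hz hz']
  · ext z
    simp only [Set.mem_iUnion, Set.mem_ofPred_eq, exists_prop]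
    constructor
    · rintro ⟨k, p, _, hz⟩
      exact hz.1
    · intro hz
      obtain ⟨A, hA, c, hc⟩ := hL z hz
      have hm : z ∈ pcsP U f W (A, c) := ⟨hz, hA, hc⟩
      exact ⟨g (A, c), (A, c), ⟨⟨z, hm⟩, rfl⟩, hm⟩
  · intro k hk
    have hex : ∃ p, p ∈ S ∧ g p = k := by
      obtain ⟨z, hz⟩ := hk
      simp only [Set.mem_iUnion, Set.mem_ofPred_eq, exists_prop] at hz
      obtain ⟨p, hp, _⟩ := hz
      exact ⟨p, hp⟩
    simp only [dif_pos hex]
    have hsp := hex.choose_spec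
    refine ⟨?_, ?_⟩
    · obtain ⟨z, hz⟩ := hsp.1
      exact hz.2.1
    · intro z hz
      simp only [Set.mem_iUnion, Set.mem_ofPred_eq, exists_prop] at hz
      obtain ⟨p, ⟨hpS, hpk⟩, hz⟩ := hz
      have heq : hex.choose = p := hg hsp.1 hpS (hsp.2.trans hpk.symm)
      rw [heq]
      exact hz.2.2.self_of_nhds

end Pool.Agent.H895R3.QC
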