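import Mathlib
import Pool.Agent.H895R3.QC.Defs

set_option autoImplicit false

open MeasureTheory Filter Topology Set

namespace Pool.Agent.H895R3.QC

theorem pln_Sq_closed : IsClosed Sq := by
  have h1 : IsClosed {w : ℂ | 0 ≤ w.re} := isClosed_le continuous_const Complex.continuous_re
  have h2 : IsClosed {w : ℂ | w.re ≤ 1} := isClosed_le Complex.continuous_re continuous_const
  have h3 : IsClosed {w : ℂ | 0 ≤ w.im} := isClosed_le continuous_const Complex.continuous_im
  have h4 : IsClosed {w : ℂ | w.im ≤ 1} := isClosed_le Complex.continuous_im continuous_const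
  have : Sq = ({w : ℂ | 0 ≤ w.re} ∩ {w : ℂ | w.re ≤ 1}) ∩ ({w : ℂ | 0 ≤ w.im} ∩ {w : ℂ | w.im ≤ 1}) := by
    ext w
    simp only [Sq, mem_setOf_eq, mem_inter_iff]
    tauto
  rw [this]
  exact (h1.inter h2).inter (h3.inter h4)

theorem pln_Sq_compact : IsCompact Sq := by
  refine Metric.isCompact_of_isClosed_isBounded pln_Sq_closed ?_
  refine (Metric.isBounded_closedBall (x := (0 : ℂ)) (r := 2)).subset ?_
  intro w hw
  obtain ⟨h1, h2, h3, h4⟩ := hw
  rw [mem_closedBall_zero_iff]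
  calc ‖w‖ ≤ |w.re| + |w.im| := Complex.norm_le_abs_re_add_abs_im w
    _ ≤ 1 + 1 := by
        rw [abs_of_nonneg h1, abs_of_nonneg h3]; linarith
    _ = 2 := by norm_num

theorem pln_Sq_convex : Convex ℝ Sq := by
  intro x hx y hy a b ha hb hab
  obtain ⟨h1, h2, h3, h4⟩ := hx
  obtain ⟨k1, k2, k3, k4⟩ := hy
  simp only [Sq, mem_setOf_eq, Complex.add_re, Complex.add_im, Complex.real_smul,
    Complex.mul_re, Complex.mul_im, Complex.ofReal_re, Complex.ofReal_im, zero_mul, sub_zero,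
    add_zero]
  refine ⟨by positivity, ?_, by positivity, ?_⟩
  · nlinarith
  · nlinarith

theorem pln_Qo_open : IsOpen Qo := by
  have h1 : IsOpen {w : ℂ | 0 < w.re} := isOpen_lt continuous_const Complex.continuous_re
  have h2 : IsOpen {w : ℂ | w.re < 1} := isOpen_lt Complex.continuous_re continuous_const
  have h3 : IsOpen {w : ℂ | 0 < w.im} := isOpen_lt continuous_const Complex.continuous_im
  have h4 : IsOpen {w : ℂ | w.im < 1} := isOpen_lt Complex.continuous_im continuous_const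
  have : Qo = ({w : ℂ | 0 < w.re} ∩ {w : ℂ | w.re < 1}) ∩ ({w : ℂ | 0 < w.im} ∩ {w : ℂ | w.im < 1}) := by
    ext w
    simp only [Qo, mem_setOf_eq, mem_inter_iff]
    tauto
  rw [this]
  exact (h1.inter h2).inter (h3.inter h4)

theorem pln_Qo_sub : Qo ⊆ Sq := by
  intro w hw
  obtain ⟨h1, h2, h3, h4⟩ := hw
  exact ⟨h1.le, h2.le, h3.le, h4.le⟩

theorem pln_int_sub : interior Sq ⊆ Qo := by
  intro w hw
  rw [mem_interior_iff_mem_nhds, Metric.mem_nhds_iff] at hw
  obtain ⟨ε, hε, hb⟩ := hw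
  have e2 : (0 : ℝ) < ε / 2 := by positivity
  have hn : ‖((ε / 2 : ℝ) : ℂ)‖ = ε / 2 := by
    rw [Complex.norm_real, Real.norm_eq_abs, abs_of_pos e2]
  have a1 : w + ((ε / 2 : ℝ) : ℂ) ∈ Sq := hb (by
    rw [Metric.mem_ball, dist_eq_norm]
    simp only [add_sub_cancel_left]
    rw [hn]; linarith)
  have a2 : w - ((ε / 2 : ℝ) : ℂ) ∈ Sq := hb (by
    rw [Metric.mem_ball, dist_eq_norm]
    simp only [sub_sub_cancel_left, norm_neg]
    rw [hn]; linarith)
  have a3 : w + ((ε / 2 : ℝ) : ℂ) * Complex.I ∈ Sq := hb (by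
    rw [Metric.mem_ball, dist_eq_norm]
    simp only [add_sub_cancel_left, norm_mul, Complex.norm_I, mul_one]
    rw [hn]; linarith)
  have a4 : w - ((ε / 2 : ℝ) : ℂ) * Complex.I ∈ Sq := hb (by
    rw [Metric.mem_ball, dist_eq_norm]
    simp only [sub_sub_cancel_left, norm_neg, norm_mul, Complex.norm_I, mul_one]
    rw [hn]; linarith)
  have b1 := a1.2.1
  have b2 := a2.1
  have b3 := a3.2.2.2
  have b4 := a4.2.2.1
  rw [Complex.add_re, Complex.ofReal_re] at b1
  rw [Complex.sub_re, Complex.ofReal_re] at b2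
  rw [Complex.add_im, Complex.mul_I_im, Complex.ofReal_re] at b3
  rw [Complex.sub_im, Complex.mul_I_im, Complex.ofReal_re] at b4
  exact ⟨by linarith, by linarith, by linarith, by linarith⟩

theorem pln_int_ne : (interior Sq).Nonempty := by
  refine ⟨⟨1 / 2, 1 / 2⟩, ?_⟩
  have h : Qo ⊆ interior Sq := interior_maximal pln_Qo_sub pln_Qo_open
  refine h ?_
  simp only [Qo, mem_setOf_eq]
  norm_num

theorem pln_null : volume (Sq \ Qo) = 0 := by
  refine measure_mono_null ?_ (pln_Sq_convex.addHaar_frontier volume)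
  rw [pln_Sq_closed.frontier_eq]
  intro w hw
  exact ⟨hw.1, fun h => hw.2 (pln_int_sub h)⟩

theorem pln_cell_null (S : Set ℂ) (q : ℂ) (r : ℝ) (h : volume S = 0) :
    volume (cell S q r) = 0 := by
  unfold cell
  refine addHaar_image_eq_zero_of_differentiableOn_of_addHaar_eq_zero volume ?_ h
  intro z _
  apply DifferentiableAt.differentiableWithinAt
  have : Differentiable ℝ (fun z : ℂ => q + (r : ℂ) * z) := by
    exact (differentiable_const q).add ((differentiable_const (r : ℂ)).mul differentiable_id)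
  exact this z

theorem pln_cell_compact (S : Set ℂ) (q : ℂ) (r : ℝ) (h : IsCompact S) :
    IsCompact (cell S q r) := by
  unfold cell
  exact h.image (by fun_prop)

theorem pln_cell_convex (S : Set ℂ) (q : ℂ) (r : ℝ) (h : Convex ℝ S) :
    Convex ℝ (cell S q r) := by
  rintro x ⟨u, hu, rfl⟩ y ⟨v, hv, rfl⟩ a b ha hb hab
  refine ⟨a • u + b • v, h hu hv ha hb hab, ?_⟩
  have hab' : (a : ℂ) + (b : ℂ) = 1 := by exact_mod_cast hab
  simp only [Complex.real_smul]
  linear_combination (-q) * hab'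

theorem pln_mem_cell (S : Set ℂ) (q : ℂ) (r : ℝ) (hr : 0 < r) (z : ℂ) :
    z ∈ cell S q r ↔ (z - q) / (r : ℂ) ∈ S := by
  have hr' : (r : ℂ) ≠ 0 := by exact_mod_cast hr.ne'
  constructor
  · rintro ⟨w, hw, rfl⟩
    have : (q + (r : ℂ) * w - q) / (r : ℂ) = w := by field_simp; ring
    simpa only [this] using hw
  · intro h
    refine ⟨(z - q) / (r : ℂ), h, ?_⟩
    show q + (r : ℂ) * ((z - q) / (r : ℂ)) = z
    field_simp
    ring

theorem t_PLN : S_PLN := by
  intro hLIN hVIT hGlu M m F0 hM hm hOk hSol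
  obtain ⟨f0, g0, hf0, hg0, hgf0, hfg0, hout, hae⟩ := hSol
  obtain ⟨-, hadd, hsub, hmul, hcont, hbd, hbij, -⟩ := hLIN
  have hK : 0 ≤ M / m := by positivity
  have hdet : vdet F0 ≠ 0 := by
    have := hOk.2
    exact (lt_of_lt_of_le hm this).ne'
  have hB := hbij F0 hdet
  obtain ⟨J, q, r, hJ, hdisj, hnull⟩ :=
    hVIT Sq pln_Sq_compact pln_int_ne univ isOpen_univ 1 one_pos
  have hlin0 : lin F0 0 = 0 := by
    have := hsub F0 0 0
    simpa using this
  -- the inverse of the linear map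
  let g1 : ℂ → ℂ := Function.surjInv hB.2
  have hfg1 : ∀ z, lin F0 (g1 z) = z := fun z => Function.surjInv_eq hB.2 z
  have hgf1 : ∀ z, g1 (lin F0 z) = z := fun z => hB.1 (hfg1 _)
  have hLf : ∀ z w, ‖lin F0 z - lin F0 w‖ ≤ M * ‖z - w‖ := by
    intro z w
    rw [← hsub]
    exact (hbd M m F0 hM hm hOk (z - w)).1
  have hLg : ∀ z w, ‖g1 z - g1 w‖ ≤ M / m * ‖z - w‖ := by
    intro z w
    have := (hbd M m F0 hM hm hOk (g1 z - g1 w)).2
    rw [hsub, hfg1, hfg1] at this
    exact this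
  let φ : ℕ → ℂ → ℂ := fun j z => lin F0 (q j) + (r j : ℂ) * f0 ((z - q j) / (r j : ℂ))
  have hφ : ∀ j z, φ j z = lin F0 (q j) + (r j : ℂ) * f0 ((z - q j) / (r j : ℂ)) := fun _ _ => rfl
  have hdiff : ∀ j ∈ J, ∀ z w, ‖φ j z - φ j w‖ =
      r j * ‖f0 ((z - q j) / (r j : ℂ)) - f0 ((w - q j) / (r j : ℂ))‖ := by
    intro j hj z w
    have hr := (hJ j hj).1
    rw [hφ, hφ, add_sub_add_left_eq_sub, ← mul_sub, norm_mul, Complex.norm_real,
      Real.norm_eq_abs, abs_of_pos hr]
  have hdist : ∀ j ∈ J, ∀ z w : ℂ, r j * ‖(z - q j) / (r j : ℂ) - (w - q j) / (r j : ℂ)‖ =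
      ‖z - w‖ := by
    intro j hj z w
    have hr := (hJ j hj).1
    rw [← sub_div, sub_sub_sub_cancel_right, norm_div, Complex.norm_real, Real.norm_eq_abs,
      abs_of_pos hr]
    field_simp
  obtain ⟨f', g', h1, h2, h3, h4, h5, h6⟩ :=
    hGlu M m (M / m) (lin F0) g1 J (fun j => cell Sq (q j) (r j)) (fun _ => F0) (fun _ => 0) φ
      hM hm hK hLf hLg hgf1 hfg1 (by
        intro j hj
        have hr := (hJ j hj).1
        have hr' : (r j : ℂ) ≠ 0 := by exact_mod_cast hr.ne'
        refine ⟨pln_cell_compact _ _ _ pln_Sq_compact, pln_cell_convex _ _ _ pln_Sq_convex,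
          hdet, fun z _ => by simp, ?_, ?_, ?_, ?_⟩
        · intro z hz
          have hz' : (z - q j) / (r j : ℂ) ∉ Qo := by
            intro h
            exact hz ((pln_mem_cell Sq (q j) (r j) hr z).2 (pln_Qo_sub h))
          rw [hφ, hout _ hz', ← hmul, ← hadd, add_zero]
          congr 1
          field_simp
          ring
        · intro z w
          rw [hdiff j hj]
          calc r j * ‖f0 ((z - q j) / (r j : ℂ)) - f0 ((w - q j) / (r j : ℂ))‖
              ≤ r j * (M * ‖(z - q j) / (r j : ℂ) - (w - q j) / (r j : ℂ)‖) :=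
                mul_le_mul_of_nonneg_left (hf0 _ _) hr.le
            _ = M * (r j * ‖(z - q j) / (r j : ℂ) - (w - q j) / (r j : ℂ)‖) := by ring
            _ = M * ‖z - w‖ := by rw [hdist j hj]
        · intro z w
          rw [hdiff j hj]
          have := hg0 (f0 ((z - q j) / (r j : ℂ))) (f0 ((w - q j) / (r j : ℂ)))
          rw [hgf0, hgf0] at this
          calc ‖z - w‖ = r j * ‖(z - q j) / (r j : ℂ) - (w - q j) / (r j : ℂ)‖ :=
                (hdist j hj z w).symm
            _ ≤ r j * (M / m * ‖f0 ((z - q j) / (r j : ℂ)) - f0 ((w - q j) / (r j : ℂ))‖) :=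
                mul_le_mul_of_nonneg_left this hr.le
            _ = M / m * (r j * ‖f0 ((z - q j) / (r j : ℂ)) - f0 ((w - q j) / (r j : ℂ))‖) := by
                ring
        · intro y
          refine ⟨q j + (r j : ℂ) * g0 ((y - lin F0 (q j)) / (r j : ℂ)), ?_⟩
          rw [hφ]
          have : (q j + (r j : ℂ) * g0 ((y - lin F0 (q j)) / (r j : ℂ)) - q j) / (r j : ℂ) =
              g0 ((y - lin F0 (q j)) / (r j : ℂ)) := by
            field_simp
            ring
          rw [this, hfg0]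
          field_simp
          ring) hdisj
  have hJne : J.Nonempty := by
    by_contra hne
    rw [Set.not_nonempty_iff_eq_empty] at hne
    rw [hne] at hnull
    simp at hnull
  obtain ⟨j0, hj0⟩ := hJne
  have hr0 := (hJ j0 hj0).1
  have hr0' : (r j0 : ℂ) ≠ 0 := by exact_mod_cast hr0.ne'
  have key : ∀ w ∈ Sq, w ∉ Qo → f' (q j0 + (r j0 : ℂ) * w) = lin F0 (q j0 + (r j0 : ℂ) * w) := by
    intro w hw hw'
    rw [h6 j0 hj0 _ ⟨w, hw, rfl⟩, hφ]
    have : (q j0 + (r j0 : ℂ) * w - q j0) / (r j0 : ℂ) = w := by field_simp; ring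
    rw [this, hout w hw', ← hmul, ← hadd]
  refine ⟨f', g', q j0, r j0, hr0, h1, h2, h3, h4, ?_, ?_, ?_, ?_⟩
  · -- almost everywhere
    have hbad : volume ((univ \ ⋃ j ∈ J, cell Sq (q j) (r j)) ∪
        ((⋃ j ∈ J, cell (Sq \ Qo) (q j) (r j)) ∪
          ⋃ j ∈ J, cell (Qo ∩ {w | ¬ LocL f0 w}) (q j) (r j))) = 0 := by
      refine measure_union_null hnull (measure_union_null ?_ ?_)
      · refine (measure_biUnion_null_iff J.to_countable).2 ?_
        intro j _
        exact pln_cell_null _ _ _ pln_null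
      · refine (measure_biUnion_null_iff J.to_countable).2 ?_
        intro j _
        refine pln_cell_null _ _ _ ?_
        rw [ae_restrict_iff' pln_Qo_open.measurableSet, ae_iff] at hae
        refine measure_mono_null ?_ hae
        rintro w ⟨hw1, hw2⟩ hw3
        exact hw2 (hw3 hw1)
    rw [ae_iff]
    refine measure_mono_null ?_ hbad
    intro z hz
    by_contra hcon
    apply hz
    simp only [mem_union, not_or] at hcon
    obtain ⟨c1, c2, c3⟩ := hcon
    simp only [mem_diff, mem_univ, true_and, not_not] at c1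
    simp only [mem_iUnion] at c1 c2 c3
    obtain ⟨j, hj, hzj⟩ := c1
    have hr := (hJ j hj).1
    have hr' : (r j : ℂ) ≠ 0 := by exact_mod_cast hr.ne'
    have hw1 : (z - q j) / (r j : ℂ) ∈ Sq := (pln_mem_cell _ _ _ hr z).1 hzj
    have hw2 : (z - q j) / (r j : ℂ) ∈ Qo := by
      by_contra h
      exact c2 ⟨j, hj, (pln_mem_cell _ _ _ hr z).2 ⟨hw1, h⟩⟩
    have hw3 : LocL f0 ((z - q j) / (r j : ℂ)) := by
      by_contra h
      exact c3 ⟨j, hj, (pln_mem_cell _ _ _ hr z).2 ⟨hw2, h⟩⟩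
    obtain ⟨B, hB', c, hc⟩ := hw3
    refine ⟨B, hB', lin F0 (q j) + (r j : ℂ) * c - lin B (q j), ?_⟩
    have hcts : Tendsto (fun z' : ℂ => (z' - q j) / (r j : ℂ)) (𝓝 z)
        (𝓝 ((z - q j) / (r j : ℂ))) := by
      have : Continuous (fun z' : ℂ => (z' - q j) / (r j : ℂ)) := by fun_prop
      exact this.tendsto z
    filter_upwards [hcts.eventually hc, hcts.eventually (pln_Qo_open.mem_nhds hw2)]
      with z' hz1 hz2
    rw [h6 j hj z' ((pln_mem_cell _ _ _ hr z').2 (pln_Qo_sub hz2)), hφ, hz1, mul_add, ← hmul]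
    have : (r j : ℂ) * ((z' - q j) / (r j : ℂ)) = z' - q j := by field_simp
    rw [this, hsub]
    ring
  · have := key 0 (by simp [Sq]) (by simp [Qo])
    simpa using this
  · have := key 1 (by simp [Sq]) (by simp [Qo])
    simpa using this
  · exact key Complex.I (by simp [Sq]) (by simp [Qo])

end Pool.Agent.H895R3.QC
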