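import Mathlib
import Pool.Agent.H895R3.QC.Defs

set_option autoImplicit false

open MeasureTheory Filter Topology Set

namespace Pool.Agent.H895R3.QC

theorem sca_cell (S : Set ℂ) (q : ℂ) (r : ℝ) (hr : 0 < r) :
    cell S q r = (fun z : ℂ => (z - q) / (r : ℂ)) ⁻¹' S := by
  have hr' : (r : ℂ) ≠ 0 := by exact_mod_cast hr.ne'
  ext z
  simp only [cell, Set.mem_image, Set.mem_preimage]
  constructor
  · rintro ⟨w, hw, rfl⟩
    have : (q + (r : ℂ) * w - q) / (r : ℂ) = w := by field_simp; ring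
    rw [this]
    exact hw
  · intro h
    refine ⟨_, h, ?_⟩
    field_simp
    ring

open Pointwise in
theorem sca_vol (S : Set ℂ) (q : ℂ) (r : ℝ) :
    volume (cell S q r) = ENNReal.ofReal |r ^ 2| * volume S := by
  have h1 : cell S q r = (fun z => q + z) '' (r • S) := by
    ext z
    simp only [cell, Set.mem_image, Set.mem_smul_set]
    constructor
    · rintro ⟨w, hw, rfl⟩
      exact ⟨r • w, ⟨w, hw, rfl⟩, by rw [Complex.real_smul]⟩
    · rintro ⟨_, ⟨w, hw, rfl⟩, rfl⟩
      exact ⟨w, hw, by rw [Complex.real_smul]⟩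
  rw [h1, Set.image_add_left, measure_preimage_add, Measure.addHaar_smul,
    Complex.finrank_real_complex]

theorem t_SCA : S_SCA := by
  intro hLIN U M K F C ψ R O D q c r hr hK hC hCc hψC hLip hlow hsurj hD hRo hOo hRC hOC hdis
    hLU hLL hvol hvolR
  obtain ⟨_, hadd, hsub, hmul, _⟩ := hLIN
  have hr' : (r : ℂ) ≠ 0 := by exact_mod_cast hr.ne'
  have hcont : Continuous (fun z : ℂ => (z - q) / (r : ℂ)) := by fun_prop
  have hlin : ∀ (A : V) (z : ℂ), (r : ℂ) * lin A ((z - q) / (r : ℂ)) = lin A z - lin A q := by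
    intro A z
    rw [← hmul, ← hsub]
    congr 1
    field_simp
  have hnr : ‖(r : ℂ)‖ = r := by
    rw [Complex.norm_real, Real.norm_eq_abs, abs_of_pos hr]
  have hzw : ∀ z w : ℂ, ‖z - w‖ = r * ‖(z - q) / (r : ℂ) - (w - q) / (r : ℂ)‖ := by
    intro z w
    rw [← sub_div, norm_div, hnr]
    have : z - q - (w - q) = z - w := by ring
    rw [this]
    field_simp
  set φ : ℂ → ℂ := fun z => lin F q + (r : ℂ) * ψ ((z - q) / (r : ℂ)) + c with hφ
  have hφφ : ∀ z w : ℂ, ‖φ z - φ w‖ = r * ‖ψ ((z - q) / (r : ℂ)) - ψ ((w - q) / (r : ℂ))‖ := by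
    intro z w
    have : φ z - φ w = (r : ℂ) * (ψ ((z - q) / (r : ℂ)) - ψ ((w - q) / (r : ℂ))) := by
      simp only [hφ]; ring
    rw [this, norm_mul, hnr]
  have hdiff : ∀ z : ℂ, φ z - (lin F z + c) =
      (r : ℂ) * (ψ ((z - q) / (r : ℂ)) - lin F ((z - q) / (r : ℂ))) := by
    intro z
    rw [mul_sub, hlin]
    simp only [hφ]
    ring
  refine ⟨?_, ?_, φ, ?_, ?_, ?_, ?_, ?_, ?_, ?_, ?_, ?_, ?_, ?_, ?_, ?_, ?_⟩
  · exact hC.image (by fun_prop)
  · have h := hCc.affinity q r
    have e : (fun z : ℂ => q + (r : ℂ) * z) = fun z => q + r • z := by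
      funext z
      rw [Complex.real_smul]
    show Convex ℝ ((fun z : ℂ => q + (r : ℂ) * z) '' C)
    rw [e]
    exact h
  · intro z hz
    rw [sca_cell C q r hr] at hz
    have h1 := hψC _ hz
    have h2 := hdiff z
    rw [h1, sub_self, mul_zero] at h2
    exact sub_eq_zero.1 h2
  · intro z w
    rw [hφφ, hzw z w]
    have := hLip ((z - q) / (r : ℂ)) ((w - q) / (r : ℂ))
    nlinarith
  · intro z w
    rw [hφφ, hzw z w]
    have := hlow ((z - q) / (r : ℂ)) ((w - q) / (r : ℂ))
    nlinarith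
  · intro y
    obtain ⟨v, hv⟩ := hsurj ((y - lin F q - c) / (r : ℂ))
    refine ⟨q + (r : ℂ) * v, ?_⟩
    have h1 : (q + (r : ℂ) * v - q) / (r : ℂ) = v := by field_simp; ring
    simp only [hφ]
    rw [h1, hv]
    field_simp
    ring
  · intro z
    rw [hdiff, norm_mul, hnr]
    exact mul_le_mul_of_nonneg_left (hD _) hr.le
  · rw [sca_cell R q r hr]
    exact hRo.preimage hcont
  · rw [sca_cell O q r hr]
    exact hOo.preimage hcont
  · exact Set.image_mono hRC
  · exact Set.image_mono hOC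
  · rw [sca_cell R q r hr, sca_cell O q r hr]
    exact hdis.preimage _
  · intro z hz
    rw [sca_cell R q r hr] at hz
    obtain ⟨A, hA, c', h⟩ := hLU _ hz
    refine ⟨A, hA, lin F q - lin A q + (r : ℂ) * c' + c, ?_⟩
    filter_upwards [hcont.continuousAt.eventually h] with w hw
    simp only [hφ]
    rw [hw, mul_add, hlin]
    ring
  · intro z hz
    rw [sca_cell O q r hr] at hz
    obtain ⟨A, hA, c', h⟩ := hLL _ hz
    refine ⟨A, hA, lin F q - lin A q + (r : ℂ) * c' + c, ?_⟩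
    filter_upwards [hcont.continuousAt.eventually h] with w hw
    simp only [hφ]
    rw [hw, mul_add, hlin]
    ring
  · have h1 : cell C q r \ (cell R q r ∪ cell O q r) = cell (C \ (R ∪ O)) q r := by
      rw [sca_cell C q r hr, sca_cell R q r hr, sca_cell O q r hr, sca_cell _ q r hr]
      rfl
    rw [h1, sca_vol, hvol, mul_zero]
  · rw [sca_vol, sca_vol]
    calc ENNReal.ofReal |r ^ 2| * volume R
        ≤ ENNReal.ofReal |r ^ 2| * (ENNReal.ofReal (15 / 16) * volume C) := by gcongr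
      _ = ENNReal.ofReal (15 / 16) * (ENNReal.ofReal |r ^ 2| * volume C) := by ring

end Pool.Agent.H895R3.QC
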