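import Mathlib
import Pool.Agent.H895R3.QC.Defs

set_option autoImplicit false

open MeasureTheory Filter Topology Set

namespace Pool.Agent.H895R3.QC

theorem t_STP : S_STP := by
  intro _ hCov hGlu hSca U M m F0 Q hM hm hOk hCell hQ f g W O hSt ε hε
  obtain ⟨hf, hg, hgf, hfg, hfQ, hWo, hWQ, hWU, hOo, hOL, hdisj, hvol⟩ := hSt
  have hK : 0 ≤ M / m := by positivity
  classical
  choose! C ψ R Oc D hC hCc hCi hout hlip hlow hsurj hD hRo hOco hRC hOC hRO hRU hOcL hvolz hvolR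
    using hCell
  have hD0 : ∀ F ∈ U, 0 ≤ D F := fun F hF => (norm_nonneg _).trans (hD F hF 0)
  obtain ⟨J, q, r, A, c, hJ1, hJ2, hJ3⟩ := hCov U f W hWo hWU C (fun F => ε / (D F + 1))
    (fun F hF => ⟨hC F hF, hCi F hF, by have := hD0 F hF; positivity⟩)
  have hs : ∀ j ∈ J, IsCompact (cell (C (A j)) (q j) (r j)) ∧
      Convex ℝ (cell (C (A j)) (q j) (r j)) ∧
      ∃ φ : ℂ → ℂ,
      (∀ z, z ∉ cell (C (A j)) (q j) (r j) → φ z = lin (A j) z + c j) ∧
      (∀ z w, ‖φ z - φ w‖ ≤ M * ‖z - w‖) ∧ (∀ z w, ‖z - w‖ ≤ M / m * ‖φ z - φ w‖) ∧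
      Function.Surjective φ ∧ (∀ z, ‖φ z - (lin (A j) z + c j)‖ ≤ r j * D (A j)) ∧
      IsOpen (cell (R (A j)) (q j) (r j)) ∧ IsOpen (cell (Oc (A j)) (q j) (r j)) ∧
      cell (R (A j)) (q j) (r j) ⊆ cell (C (A j)) (q j) (r j) ∧
      cell (Oc (A j)) (q j) (r j) ⊆ cell (C (A j)) (q j) (r j) ∧
      Disjoint (cell (R (A j)) (q j) (r j)) (cell (Oc (A j)) (q j) (r j)) ∧
      (∀ z ∈ cell (R (A j)) (q j) (r j), LocU U φ z) ∧
      (∀ z ∈ cell (Oc (A j)) (q j) (r j), LocL φ z) ∧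
      volume (cell (C (A j)) (q j) (r j) \ (cell (R (A j)) (q j) (r j) ∪
        cell (Oc (A j)) (q j) (r j))) = 0 ∧
      volume (cell (R (A j)) (q j) (r j)) ≤
        ENNReal.ofReal (15 / 16) * volume (cell (C (A j)) (q j) (r j)) := by
    intro j hj
    have hA := (hJ1 j hj).1
    exact hSca U M (M / m) (A j) (C (A j)) (ψ (A j)) (R (A j)) (Oc (A j)) (D (A j)) (q j) (c j)
      (r j) (hJ1 j hj).2.1 hK (hC _ hA) (hCc _ hA) (hout _ hA) (hlip _ hA) (hlow _ hA)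
      (hsurj _ hA) (hD _ hA) (hRo _ hA) (hOco _ hA) (hRC _ hA) (hOC _ hA) (hRO _ hA)
      (hRU _ hA) (hOcL _ hA) (hvolz _ hA) (hvolR _ hA)
  choose! hcomp hconv φ hφout hφlip hφlow hφsurj hφD hcRo hcOo hcRC hcOC hcRO hcRU hcOL hcvz hcvR
    using hs
  obtain ⟨f', g', hf', hg', hgf', hfg', hoff, hon⟩ := hGlu M m (M / m) f g J
    (fun j => cell (C (A j)) (q j) (r j)) A c φ hM hm hK hf hg hgf hfg
    (fun j hj => ⟨hcomp j hj, hconv j hj,
      (lt_of_lt_of_le hm (hOk _ (hJ1 j hj).1).2).ne', (hJ1 j hj).2.2.2.2, hφout j hj,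
      hφlip j hj, hφlow j hj, hφsurj j hj⟩) hJ2
  have hcW : ∀ j ∈ J, cell (C (A j)) (q j) (r j) ⊆ W := fun j hj => (hJ1 j hj).2.2.2.1
  have hoffW : ∀ z, z ∉ W → f' z = f z := fun z hz =>
    hoff z (fun j hj hzj => hz (hcW j hj hzj))
  have hJc : J.Countable := J.to_countable
  have hW'W : (⋃ j ∈ J, cell (R (A j)) (q j) (r j)) ⊆ W :=
    iUnion₂_subset fun j hj => (hcRC j hj).trans (hcW j hj)
  refine ⟨f', g', ⋃ j ∈ J, cell (R (A j)) (q j) (r j),
    O ∪ ⋃ j ∈ J, cell (Oc (A j)) (q j) (r j),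
    ⟨hf', hg', hgf', hfg', ?_, ?_, ?_, ?_, ?_, ?_, ?_, ?_⟩, ?_, hoffW, subset_union_left, hW'W, ?_⟩
  · intro z hz
    rw [hoffW z (fun h => hz (hWQ h)), hfQ z hz]
  · exact isOpen_biUnion fun j hj => hcRo j hj
  · exact hW'W.trans hWQ
  · intro z hz
    rw [mem_iUnion₂] at hz
    obtain ⟨j, hj, hzj⟩ := hz
    obtain ⟨A', hA', c', hev⟩ := hcRU j hj z hzj
    refine ⟨A', hA', c', ?_⟩
    filter_upwards [hev, (hcRo j hj).mem_nhds hzj] with w hw hwR
    rw [hon j hj w (hcRC j hj hwR), hw]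
  · exact hOo.union (isOpen_biUnion fun j hj => hcOo j hj)
  · intro z hz
    rcases hz with hz | hz
    · obtain ⟨B, hB, c', hev⟩ := hOL z hz
      refine ⟨B, hB, c', ?_⟩
      filter_upwards [hev, hOo.mem_nhds hz] with w hw hwO
      rw [hoffW w (fun h => Set.disjoint_left.mp hdisj hwO h), hw]
    · rw [mem_iUnion₂] at hz
      obtain ⟨j, hj, hzj⟩ := hz
      obtain ⟨B, hB, c', hev⟩ := hcOL j hj z hzj
      refine ⟨B, hB, c', ?_⟩
      filter_upwards [hev, (hcOo j hj).mem_nhds hzj] with w hw hwR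
      rw [hon j hj w (hcOC j hj hwR), hw]
  · rw [Set.disjoint_left]
    intro z hz hz'
    rcases hz with hz | hz
    · exact Set.disjoint_left.mp hdisj hz (hW'W hz')
    · rw [mem_iUnion₂] at hz hz'
      obtain ⟨i, hi, hzi⟩ := hz
      obtain ⟨j, hj, hzj⟩ := hz'
      by_cases hij : i = j
      · subst hij
        exact Set.disjoint_left.mp (hcRO i hi) hzj hzi
      · exact Set.disjoint_left.mp (hJ2 i hi j hj hij) (hcOC i hi hzi) (hcRC j hj hzj)
  · have hsub : Q \ ((O ∪ ⋃ j ∈ J, cell (Oc (A j)) (q j) (r j)) ∪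
        ⋃ j ∈ J, cell (R (A j)) (q j) (r j)) ⊆
        (Q \ (O ∪ W)) ∪ (W \ ⋃ j ∈ J, cell (C (A j)) (q j) (r j)) ∪
        ⋃ j ∈ J, (cell (C (A j)) (q j) (r j) \ (cell (R (A j)) (q j) (r j) ∪
          cell (Oc (A j)) (q j) (r j))) := by
      rintro z ⟨hzQ, hz⟩
      have hz1 : z ∉ O := fun h => hz (Or.inl (Or.inl h))
      have hz2 : z ∉ ⋃ j ∈ J, cell (Oc (A j)) (q j) (r j) := fun h => hz (Or.inl (Or.inr h))
      have hz3 : z ∉ ⋃ j ∈ J, cell (R (A j)) (q j) (r j) := fun h => hz (Or.inr h)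
      by_cases hzW : z ∈ W
      · by_cases hzC : z ∈ ⋃ j ∈ J, cell (C (A j)) (q j) (r j)
        · rw [mem_iUnion₂] at hzC
          obtain ⟨j, hj, hzj⟩ := hzC
          right
          rw [mem_iUnion₂]
          refine ⟨j, hj, hzj, ?_⟩
          rintro (h | h)
          · exact hz3 (mem_iUnion₂.mpr ⟨j, hj, h⟩)
          · exact hz2 (mem_iUnion₂.mpr ⟨j, hj, h⟩)
        · left; right
          exact ⟨hzW, hzC⟩
      · left; left
        exact ⟨hzQ, fun h => h.elim hz1 hzW⟩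
    refine measure_mono_null hsub ?_
    refine measure_union_null (measure_union_null hvol hJ3) ?_
    rw [measure_biUnion_null_iff hJc]
    exact fun j hj => hcvz j hj
  · intro z
    by_cases hz : ∃ j ∈ J, z ∈ cell (C (A j)) (q j) (r j)
    · obtain ⟨j, hj, hzj⟩ := hz
      rw [hon j hj z hzj, (hJ1 j hj).2.2.2.2 z hzj]
      refine (hφD j hj z).trans ?_
      have hDj := hD0 (A j) (hJ1 j hj).1
      have hrj : r j ≤ ε / (D (A j) + 1) := (hJ1 j hj).2.2.1
      calc r j * D (A j) ≤ ε / (D (A j) + 1) * D (A j) := mul_le_mul_of_nonneg_right hrj hDj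
        _ = ε * (D (A j) / (D (A j) + 1)) := by ring
        _ ≤ ε * 1 := by
            refine mul_le_mul_of_nonneg_left ?_ hε.le
            rw [div_le_one (by linarith)]
            linarith
        _ = ε := mul_one _
    · push Not at hz
      rw [hoff z hz, sub_self, norm_zero]
      exact hε.le
  · calc volume (⋃ j ∈ J, cell (R (A j)) (q j) (r j))
        ≤ ∑' j : J, volume (cell (R (A j)) (q j) (r j)) :=
          measure_biUnion_le volume hJc _
      _ ≤ ∑' j : J, ENNReal.ofReal (15 / 16) * volume (cell (C (A j)) (q j) (r j)) :=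
          ENNReal.tsum_le_tsum fun j => hcvR j.1 j.2
      _ = ENNReal.ofReal (15 / 16) * ∑' j : J, volume (cell (C (A j)) (q j) (r j)) :=
          ENNReal.tsum_mul_left
      _ = ENNReal.ofReal (15 / 16) * volume (⋃ j ∈ J, cell (C (A j)) (q j) (r j)) := by
          rw [measure_biUnion hJc (fun i hi j hj hij => hJ2 i hi j hj hij)
            (fun j hj => (hcomp j hj).measurableSet)]
      _ ≤ ENNReal.ofReal (15 / 16) * volume W :=
          mul_le_mul' le_rfl (measure_mono (iUnion₂_subset fun j hj => hcW j hj))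

end Pool.Agent.H895R3.QC
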