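import Mathlib
import Pool.Agent.H895R3.QC.Defs

set_option autoImplicit false

open MeasureTheory Filter Topology Set

namespace Pool.Agent.H895R3.QC

theorem una_roof_of {l u v y : ℝ} (h1 : y ≤ (1 - l) * u) (h2 : y ≤ l * (1 - u)) (h3 : y ≤ 8 * v)
    (h4 : y ≤ 8 * (1 - v)) (h0 : 0 ≤ y)
    (he : y = (1 - l) * u ∨ y = l * (1 - u) ∨ y = 8 * v ∨ y = 8 * (1 - v)) :
    roof l u v = y := by
  unfold roof
  have h5 : min (min ((1 - l) * u) (l * (1 - u))) (min (8 * v) (8 * (1 - v))) = y := by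
    apply le_antisymm
    · rcases he with he | he | he | he
      · rw [he]; exact (min_le_left _ _).trans (min_le_left _ _)
      · rw [he]; exact (min_le_left _ _).trans (min_le_right _ _)
      · rw [he]; exact (min_le_right _ _).trans (min_le_left _ _)
      · rw [he]; exact (min_le_right _ _).trans (min_le_right _ _)
    · exact le_min (le_min h1 h2) (le_min h3 h4)
  rw [h5, max_eq_right h0]

theorem t_UNA : S_UNA := by
  intro l hl0 hl1
  have hre : Continuous (fun w : ℂ => w.re) := Complex.continuous_re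
  have him : Continuous (fun w : ℂ => w.im) := Complex.continuous_im
  have c1 : Continuous (fun w : ℂ => (1 - l) * w.re) := continuous_const.mul hre
  have c2 : Continuous (fun w : ℂ => l * (1 - w.re)) :=
    continuous_const.mul (continuous_const.sub hre)
  have c3 : Continuous (fun w : ℂ => 8 * w.im) := continuous_const.mul him
  have c4 : Continuous (fun w : ℂ => 8 * (1 - w.im)) :=
    continuous_const.mul (continuous_const.sub him)
  refine ⟨?_, ?_, ?_, ?_, ?_, ?_, ?_, ?_, ?_, ?_, ?_, ?_, ?_, ?_, ?_⟩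
  · exact (isOpen_lt continuous_const hre).inter ((isOpen_lt c1 c2).inter
      ((isOpen_lt c1 c3).inter (isOpen_lt c1 c4)))
  · exact (isOpen_lt hre continuous_const).inter ((isOpen_lt c2 c1).inter
      ((isOpen_lt c2 c3).inter (isOpen_lt c2 c4)))
  · exact (isOpen_lt continuous_const him).inter ((isOpen_lt c3 c1).inter
      ((isOpen_lt c3 c2).inter (isOpen_lt c3 c4)))
  · exact (isOpen_lt him continuous_const).inter ((isOpen_lt c4 c1).inter
      ((isOpen_lt c4 c2).inter (isOpen_lt c4 c3)))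
  · rintro w ⟨h1, h2, h3, h4⟩
    refine ⟨h1.le, ?_, ?_, ?_⟩ <;> nlinarith
  · rintro w ⟨h1, h2, h3, h4⟩
    refine ⟨?_, h1.le, ?_, ?_⟩ <;> nlinarith
  · rintro w ⟨h1, h2, h3, h4⟩
    refine ⟨?_, ?_, h1.le, ?_⟩ <;> nlinarith
  · rintro w ⟨h1, h2, h3, h4⟩
    refine ⟨?_, ?_, ?_, h1.le⟩ <;> nlinarith
  · rw [Set.disjoint_left]
    rintro w ((⟨h1, h2, h3, h4⟩ | ⟨h1, h2, h3, h4⟩) | ⟨h1, h2, h3, h4⟩) ⟨k1, k2, k3, k4⟩ <;>
      linarith
  · rintro w ⟨h1, h2, h3, h4⟩
    exact una_roof_of le_rfl h2.le h3.le h4.le (by nlinarith) (Or.inl rfl)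
  · rintro w ⟨h1, h2, h3, h4⟩
    exact una_roof_of h2.le le_rfl h3.le h4.le (by nlinarith) (Or.inr (Or.inl rfl))
  · rintro w ⟨h1, h2, h3, h4⟩
    exact una_roof_of h2.le h3.le le_rfl h4.le (by nlinarith) (Or.inr (Or.inr (Or.inl rfl)))
  · rintro w ⟨h1, h2, h3, h4⟩
    exact una_roof_of h2.le h3.le h4.le le_rfl (by nlinarith) (Or.inr (Or.inr (Or.inr rfl)))
  · intro w hw
    unfold roof
    apply max_eq_left
    by_contra hcon
    push Not at hcon
    rw [lt_min_iff, lt_min_iff, lt_min_iff] at hcon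
    obtain ⟨⟨k1, k2⟩, k3, k4⟩ := hcon
    apply hw
    have e1 : 0 < w.re := (pos_iff_pos_of_mul_pos k1).1 (by linarith)
    have e2 : 0 < 1 - w.re := (pos_iff_pos_of_mul_pos k2).1 (by linarith)
    exact ⟨e1.le, by linarith, by linarith, by linarith⟩
  · intro u v
    unfold roof
    refine ⟨le_max_left _ _, max_le zero_le_one ?_⟩
    rcases le_total u 1 with h | h
    · refine (min_le_left _ _).trans ((min_le_left _ _).trans ?_)
      nlinarith
    · refine (min_le_left _ _).trans ((min_le_right _ _).trans ?_)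
      nlinarith

end Pool.Agent.H895R3.QC
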