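import Mathlib
import Pool.Agent.H895R3.QC.Defs

/-!
Task UNB (helper73): measure of the four regions.
-/

set_option autoImplicit false

open MeasureTheory Filter Topology Set

namespace Pool.Agent.H895R3.QC

theorem unb_line (a b c : ℝ) (h : a ≠ 0 ∨ b ≠ 0) :
    volume {w : ℂ | a * w.re + b * w.im = c} = 0 := by
  set φ : ℂ →ₗ[ℝ] ℝ := a • Complex.reLm + b • Complex.imLm with hφ
  have hφa : ∀ w : ℂ, φ w = a * w.re + b * w.im := by
    intro w
    simp [hφ]
  rcases Set.eq_empty_or_nonempty {w : ℂ | a * w.re + b * w.im = c} with he | ⟨w0, hw0⟩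
  · rw [he, measure_empty]
  have hw0' : a * w0.re + b * w0.im = c := hw0
  have hset : {w : ℂ | a * w.re + b * w.im = c} =
      (AffineSubspace.mk' w0 (LinearMap.ker φ) : Set ℂ) := by
    ext w
    rw [SetLike.mem_coe, AffineSubspace.mem_mk', LinearMap.mem_ker, vsub_eq_sub, map_sub, hφa,
      hφa, hw0', sub_eq_zero]
    rfl
  rw [hset]
  apply Measure.addHaar_affineSubspace
  intro htop
  have h1 : (AffineSubspace.mk' w0 (LinearMap.ker φ)).direction = LinearMap.ker φ :=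
    AffineSubspace.direction_mk' _ _
  rw [htop, AffineSubspace.direction_top] at h1
  have h2 : ∀ w : ℂ, φ w = 0 := by
    intro w
    have : w ∈ LinearMap.ker φ := by
      rw [← h1]
      exact Submodule.mem_top
    exact LinearMap.mem_ker.1 this
  have h3 := h2 1
  have h4 := h2 Complex.I
  rw [hφa] at h3 h4
  simp at h3 h4
  rcases h with h | h
  · exact h h3
  · exact h h4

theorem unb_rect (s t : Set ℝ) (hs : MeasurableSet s) (ht : MeasurableSet t) :
    volume {w : ℂ | w.re ∈ s ∧ w.im ∈ t} = volume s * volume t := by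
  have h1 := Complex.volume_preserving_equiv_real_prod.measure_preimage
    (hs.prod ht).nullMeasurableSet
  have h2 : Complex.measurableEquivRealProd ⁻¹' (s ×ˢ t) = {w : ℂ | w.re ∈ s ∧ w.im ∈ t} := by
    ext w
    simp [Complex.measurableEquivRealProd_apply]
  rw [h2] at h1
  rw [h1, Measure.volume_eq_prod, Measure.prod_prod]

theorem unb_sq : Sq = {w : ℂ | w.re ∈ Set.Icc (0:ℝ) 1 ∧ w.im ∈ Set.Icc (0:ℝ) 1} := by
  ext w
  simp only [Sq, Set.mem_setOf_eq, Set.mem_Icc]
  tauto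

theorem unb_vol : volume Sq = 1 := by
  rw [unb_sq, unb_rect _ _ measurableSet_Icc measurableSet_Icc, Real.volume_Icc]
  simp

theorem unb_cover (l : ℝ) (hl0 : 0 < l) (hl1 : l < 1) (w : ℂ) (hw : w ∈ Sq)
    (h1 : w ∉ R1 l) (h2 : w ∉ R2 l) (h3 : w ∉ R3 l) (h4 : w ∉ R4 l) :
    w.re = 0 ∨ w.re = 1 ∨ w.im = 0 ∨ w.im = 1 ∨ (1 - l) * w.re = l * (1 - w.re) ∨
    (1 - l) * w.re = 8 * w.im ∨ (1 - l) * w.re = 8 * (1 - w.im) ∨ l * (1 - w.re) = 8 * w.im ∨
    l * (1 - w.re) = 8 * (1 - w.im) ∨ 8 * w.im = 8 * (1 - w.im) := by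
  by_contra hcon
  push Not at hcon
  obtain ⟨a1, a2, a3, a4, a5, a6, a7, a8, a9, a10⟩ := hcon
  obtain ⟨b1, b2, b3, b4⟩ := hw
  have c1 : 0 < w.re := lt_of_le_of_ne b1 (Ne.symm a1)
  have c2 : w.re < 1 := lt_of_le_of_ne b2 a2
  have c3 : 0 < w.im := lt_of_le_of_ne b3 (Ne.symm a3)
  have c4 : w.im < 1 := lt_of_le_of_ne b4 a4
  have k1 : ¬ ((1 - l) * w.re < l * (1 - w.re) ∧ (1 - l) * w.re < 8 * w.im ∧
      (1 - l) * w.re < 8 * (1 - w.im)) := fun h => h1 ⟨c1, h⟩
  have k2 : ¬ (l * (1 - w.re) < (1 - l) * w.re ∧ l * (1 - w.re) < 8 * w.im ∧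
      l * (1 - w.re) < 8 * (1 - w.im)) := fun h => h2 ⟨c2, h⟩
  have k3 : ¬ (8 * w.im < (1 - l) * w.re ∧ 8 * w.im < l * (1 - w.re) ∧
      8 * w.im < 8 * (1 - w.im)) := fun h => h3 ⟨c3, h⟩
  have k4 : ¬ (8 * (1 - w.im) < (1 - l) * w.re ∧ 8 * (1 - w.im) < l * (1 - w.re) ∧
      8 * (1 - w.im) < 8 * w.im) := fun h => h4 ⟨c4, h⟩
  rcases lt_or_gt_of_ne a5 with e1 | e1
  · rcases lt_or_gt_of_ne a6 with e2 | e2
    · rcases lt_or_gt_of_ne a7 with e3 | e3
      · exact k1 ⟨e1, e2, e3⟩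
      · exact k4 ⟨e3, e3.trans e1, e3.trans e2⟩
    · rcases lt_or_gt_of_ne a10 with e3 | e3
      · exact k3 ⟨e2, e2.trans e1, e3⟩
      · exact k4 ⟨e3.trans e2, (e3.trans e2).trans e1, e3⟩
  · rcases lt_or_gt_of_ne a8 with e2 | e2
    · rcases lt_or_gt_of_ne a9 with e3 | e3
      · exact k2 ⟨e1, e2, e3⟩
      · exact k4 ⟨e3.trans e1, e3, e3.trans e2⟩
    · rcases lt_or_gt_of_ne a10 with e3 | e3
      · exact k3 ⟨e2.trans e1, e2, e3⟩
      · exact k4 ⟨(e3.trans e2).trans e1, e3.trans e2, e3⟩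

theorem unb_null (l : ℝ) (hl0 : 0 < l) (hl1 : l < 1) :
    volume (Sq \ (R2 l ∪ R3 l ∪ R4 l ∪ R1 l)) = 0 := by
  have hsub : Sq \ (R2 l ∪ R3 l ∪ R4 l ∪ R1 l) ⊆
      {w : ℂ | 1 * w.re + 0 * w.im = 0} ∪ {w : ℂ | 1 * w.re + 0 * w.im = 1} ∪
      {w : ℂ | 0 * w.re + 1 * w.im = 0} ∪ {w : ℂ | 0 * w.re + 1 * w.im = 1} ∪
      {w : ℂ | 1 * w.re + 0 * w.im = l} ∪ {w : ℂ | (1 - l) * w.re + (-8) * w.im = 0} ∪
      {w : ℂ | (1 - l) * w.re + 8 * w.im = 8} ∪ {w : ℂ | l * w.re + 8 * w.im = l} ∪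
      {w : ℂ | l * w.re + (-8) * w.im = l - 8} ∪ {w : ℂ | 0 * w.re + 16 * w.im = 8} := by
    rintro w ⟨hw, hn⟩
    simp only [Set.mem_union, not_or] at hn
    obtain ⟨⟨⟨h2, h3⟩, h4⟩, h1⟩ := hn
    have := unb_cover l hl0 hl1 w hw h1 h2 h3 h4
    simp only [Set.mem_union, Set.mem_setOf_eq]
    rcases this with h | h | h | h | h | h | h | h | h | h
    · left; left; left; left; left; left; left; left; left; linarith
    · left; left; left; left; left; left; left; left; right; linarith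
    · left; left; left; left; left; left; left; right; linarith
    · left; left; left; left; left; left; right; linarith
    · left; left; left; left; left; right; linarith
    · left; left; left; left; right; linarith
    · left; left; left; right; linarith
    · left; left; right; linarith
    · left; right; linarith
    · right; linarith
  apply measure_mono_null hsub
  have hl : 1 - l ≠ 0 := by linarith
  simp only [measure_union_null_iff]
  refine ⟨⟨⟨⟨⟨⟨⟨⟨⟨?_, ?_⟩, ?_⟩, ?_⟩, ?_⟩, ?_⟩, ?_⟩, ?_⟩, ?_⟩, ?_⟩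
  · exact unb_line _ _ _ (Or.inl one_ne_zero)
  · exact unb_line _ _ _ (Or.inl one_ne_zero)
  · exact unb_line _ _ _ (Or.inr one_ne_zero)
  · exact unb_line _ _ _ (Or.inr one_ne_zero)
  · exact unb_line _ _ _ (Or.inl one_ne_zero)
  · exact unb_line _ _ _ (Or.inl hl)
  · exact unb_line _ _ _ (Or.inl hl)
  · exact unb_line _ _ _ (Or.inl hl0.ne')
  · exact unb_line _ _ _ (Or.inl hl0.ne')
  · exact unb_line _ _ _ (Or.inr (by norm_num))

theorem unb_area (l : ℝ) (hl0 : 1 / 8 ≤ l) (hl1 : l ≤ 7 / 8) :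
    volume (R2 l ∪ R3 l ∪ R4 l) ≤ ENNReal.ofReal (15 / 16) * volume Sq := by
  set T : Set ℂ := {w : ℂ | w.re ∈ Set.Ioo (0:ℝ) l ∧ w.im ∈ Set.Ioo (1/8:ℝ) (7/8)} with hT
  have hTm : MeasurableSet T := by
    apply MeasurableSet.inter
    · exact Complex.measurable_re measurableSet_Ioo
    · exact Complex.measurable_im measurableSet_Ioo
  have hTv : volume T = ENNReal.ofReal (l * (3 / 4)) := by
    rw [hT, unb_rect _ _ measurableSet_Ioo measurableSet_Ioo, Real.volume_Ioo, Real.volume_Ioo,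
      ← ENNReal.ofReal_mul (by linarith)]
    congr 1
    ring
  have hTS : T ⊆ Sq := by
    rintro w ⟨⟨h1, h2⟩, ⟨h3, h4⟩⟩
    exact ⟨h1.le, by linarith, by linarith, by linarith⟩
  have hsub : R2 l ∪ R3 l ∪ R4 l ⊆ Sq \ T := by
    rintro w hw
    have hA : w ∈ T → (1 - l) * w.re < l * (1 - w.re) ∧ (1 - l) * w.re < 8 * w.im ∧
        (1 - l) * w.re < 8 * (1 - w.im) := by
      rintro ⟨⟨h1, h2⟩, ⟨h3, h4⟩⟩
      have h5 : (1 - l) * w.re ≤ 1 * w.re := mul_le_mul_of_nonneg_right (by linarith) h1.le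
      refine ⟨by nlinarith, by linarith, by linarith⟩
    rcases hw with (⟨h1, h2, h3, h4⟩ | ⟨h1, h2, h3, h4⟩) | ⟨h1, h2, h3, h4⟩
    · constructor
      · have e1 : 0 < w.re := by nlinarith
        have e2 : 0 < l * (1 - w.re) := mul_pos (by linarith) (by linarith)
        exact ⟨e1.le, h1.le, by linarith, by linarith⟩
      · intro hT'
        have := (hA hT').1
        linarith
    · constructor
      · have e1 : 0 < w.re := by
          by_contra hc
          have : (1 - l) * w.re ≤ 0 := mul_nonpos_of_nonneg_of_nonpos (by linarith) (by linarith)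
          linarith
        have e2 : w.re < 1 := by
          by_contra hc
          have : l * (1 - w.re) ≤ 0 := mul_nonpos_of_nonneg_of_nonpos (by linarith) (by linarith)
          linarith
        exact ⟨e1.le, e2.le, h1.le, by linarith⟩
      · intro hT'
        have := (hA hT').2.1
        linarith
    · constructor
      · have e1 : 0 < w.re := by
          by_contra hc
          have : (1 - l) * w.re ≤ 0 := mul_nonpos_of_nonneg_of_nonpos (by linarith) (by linarith)
          linarith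
        have e2 : w.re < 1 := by
          by_contra hc
          have : l * (1 - w.re) ≤ 0 := mul_nonpos_of_nonneg_of_nonpos (by linarith) (by linarith)
          linarith
        exact ⟨e1.le, e2.le, by linarith, h1.le⟩
      · intro hT'
        have := (hA hT').2.2
        linarith
  have h1 : volume (Sq \ T) = volume Sq - volume T := by
    apply measure_diff hTS hTm.nullMeasurableSet
    rw [hTv]
    exact ENNReal.ofReal_ne_top
  refine (measure_mono hsub).trans ?_
  rw [h1, unb_vol, hTv, mul_one, tsub_le_iff_right, ← ENNReal.ofReal_add (by norm_num)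
    (by nlinarith)]
  rw [← ENNReal.ofReal_one]
  apply ENNReal.ofReal_le_ofReal
  linarith

theorem t_UNB : S_UNB := by
  refine ⟨fun l hl0 hl1 => ⟨unb_null l (by linarith) (by linarith), unb_area l hl0 hl1⟩,
    ?_, ?_, ?_⟩
  · have h : Sq = (Set.Icc (0:ℝ) 1) ×ℂ (Set.Icc (0:ℝ) 1) := by
      rw [unb_sq]
      rfl
    rw [h]
    exact isCompact_Icc.reProdIm isCompact_Icc
  · intro w hw z hz s t hs ht hst
    obtain ⟨a1, a2, a3, a4⟩ := hw
    obtain ⟨b1, b2, b3, b4⟩ := hz
    refine ⟨?_, ?_, ?_, ?_⟩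
    · simp only [Complex.add_re, Complex.real_smul, Complex.re_ofReal_mul]
      positivity
    · simp only [Complex.add_re, Complex.real_smul, Complex.re_ofReal_mul]
      have h1 := mul_le_mul_of_nonneg_left a2 hs
      have h2 := mul_le_mul_of_nonneg_left b2 ht
      linarith
    · simp only [Complex.add_im, Complex.real_smul, Complex.im_ofReal_mul]
      positivity
    · simp only [Complex.add_im, Complex.real_smul, Complex.im_ofReal_mul]
      have h1 := mul_le_mul_of_nonneg_left a4 hs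
      have h2 := mul_le_mul_of_nonneg_left b4 ht
      linarith
  · have hopen : IsOpen {w : ℂ | w.re ∈ Set.Ioo (0:ℝ) 1 ∧ w.im ∈ Set.Ioo (0:ℝ) 1} := by
      apply IsOpen.inter
      · exact isOpen_Ioo.preimage Complex.continuous_re
      · exact isOpen_Ioo.preimage Complex.continuous_im
    have hsub : {w : ℂ | w.re ∈ Set.Ioo (0:ℝ) 1 ∧ w.im ∈ Set.Ioo (0:ℝ) 1} ⊆ Sq := by
      rintro w ⟨⟨h1, h2⟩, ⟨h3, h4⟩⟩
      exact ⟨h1.le, h2.le, h3.le, h4.le⟩
    refine ⟨⟨1 / 2, 1 / 2⟩, interior_maximal hsub hopen ?_⟩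
    constructor <;> constructor <;> norm_num

end Pool.Agent.H895R3.QC

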