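import Mathlib
import Pool.Agent.H895R3.QC.Defs

/-! Task VIT (helper142): Vitali covering by scaled copies of a compact set. -/

set_option autoImplicit false

open MeasureTheory Filter Topology Set
open scoped Pointwise

namespace Pool.Agent.H895R3.QC

lemma vit_volume (C : Set ℂ) (q : ℂ) {t : ℝ} (ht : 0 ≤ t) :
    volume (cell C q t) = ENNReal.ofReal t ^ 2 * volume C := by
  have h1 : cell C q t = (fun z => q + z) '' (t • C) := by
    unfold cell
    ext z
    constructor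
    · rintro ⟨w, hw, rfl⟩
      refine ⟨t • w, Set.smul_mem_smul_set hw, ?_⟩
      simp
    · rintro ⟨_, ⟨w, hw, rfl⟩, rfl⟩
      refine ⟨w, hw, ?_⟩
      simp
  rw [h1, Set.image_add_left, measure_preimage_add, Measure.addHaar_smul,
    Complex.finrank_real_complex, abs_of_nonneg (by positivity), ENNReal.ofReal_pow ht]

lemma vit_ball (x : ℂ) {t R : ℝ} (ht : 0 ≤ t) :
    volume (Metric.closedBall x (3 * (t * R))) =
      ENNReal.ofReal t ^ 2 * (ENNReal.ofReal (3 * R) ^ 2 * NNReal.pi) := by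
  rw [Complex.volume_closedBall, show 3 * (t * R) = t * (3 * R) by ring,
    ENNReal.ofReal_mul ht, mul_pow, mul_assoc]

theorem t_VIT : S_VIT := by
  intro C hC hCi W hW ρ hρ
  obtain ⟨y0, hy0⟩ := hCi
  obtain ⟨R0, hR0⟩ := hC.isBounded.subset_closedBall y0
  obtain ⟨R, hR, hRC⟩ : ∃ R : ℝ, 0 < R ∧ C ⊆ Metric.closedBall y0 R :=
    ⟨max R0 1, lt_max_of_lt_right one_pos,
      hR0.trans (Metric.closedBall_subset_closedBall (le_max_left _ _))⟩
  have hvC0 : volume C ≠ 0 := by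
    have h1 : 0 < volume (interior C) := isOpen_interior.measure_pos volume ⟨y0, hy0⟩
    exact (lt_of_lt_of_le h1 (measure_mono interior_subset)).ne'
  have hvCt : volume C ≠ ⊤ := hC.measure_lt_top.ne
  set K : ENNReal := (ENNReal.ofReal (3 * R) ^ 2 * NNReal.pi) / volume C with hK
  have hKt : K ≠ ⊤ := by
    rw [hK]
    apply ENNReal.div_ne_top _ hvC0
    exact ENNReal.mul_ne_top (ENNReal.pow_ne_top ENNReal.ofReal_ne_top) ENNReal.coe_ne_top
  let B : ℂ × ℝ → Set ℂ := fun a => cell C (a.1 - (a.2 : ℂ) * y0) a.2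
  let T : Set (ℂ × ℝ) := {a | 0 < a.2 ∧ a.2 ≤ ρ ∧ Metric.closedBall a.1 (a.2 * R) ⊆ W}
  have hB : ∀ a ∈ T, B a ⊆ Metric.closedBall a.1 (a.2 * R) := by
    rintro ⟨x, t⟩ ⟨ht, -, -⟩ z hz
    obtain ⟨w, hw, rfl⟩ := hz
    have h1 := hRC hw
    rw [Metric.mem_closedBall, dist_eq_norm] at h1 ⊢
    have e : x - (t : ℂ) * y0 + (t : ℂ) * w - x = (t : ℂ) * (w - y0) := by ring
    have ht' : (0 : ℝ) < t := ht
    show ‖x - (t : ℂ) * y0 + (t : ℂ) * w - x‖ ≤ t * R
    rw [e, norm_mul, Complex.norm_real, Real.norm_eq_abs, abs_of_pos ht']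
    exact mul_le_mul_of_nonneg_left h1 ht'.le
  have hμB : ∀ a ∈ T, volume (Metric.closedBall a.1 (3 * (a.2 * R))) ≤
      (K.toNNReal : ENNReal) * volume (B a) := by
    rintro ⟨x, t⟩ ⟨ht, -, -⟩
    have ht' : (0 : ℝ) < t := ht
    rw [ENNReal.coe_toNNReal hKt]
    show volume (Metric.closedBall x (3 * (t * R))) ≤ K * volume (cell C (x - (t : ℂ) * y0) t)
    have e : K * (ENNReal.ofReal t ^ 2 * volume C) =
        ENNReal.ofReal t ^ 2 * (K * volume C) := by ring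
    rw [vit_ball x ht'.le, vit_volume _ _ ht'.le, e, hK, ENNReal.div_mul_cancel hvC0 hvCt]
  have hopen : ∀ a ∈ T, (interior (B a)).Nonempty := by
    rintro ⟨x, t⟩ ⟨ht, -, -⟩
    have ht' : (0 : ℝ) < t := ht
    have htc : (t : ℂ) ≠ 0 := by exact_mod_cast ht'.ne'
    have hm : IsOpenMap (fun z : ℂ => (x - (t : ℂ) * y0) + (t : ℂ) * z) :=
      (isOpenMap_add_left _).comp (Homeomorph.mulLeft₀ (t : ℂ) htc).isOpenMap
    exact ⟨_, hm.image_interior_subset C ⟨y0, hy0, rfl⟩⟩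
  have hclosed : ∀ a ∈ T, IsClosed (B a) := by
    rintro ⟨x, t⟩ -
    have : Continuous (fun z : ℂ => (x - (t : ℂ) * y0) + (t : ℂ) * z) := by fun_prop
    exact (hC.image this).isClosed
  have hfine : ∀ x ∈ W, ∀ ε > (0 : ℝ), ∃ a ∈ T, a.2 * R ≤ ε ∧ a.1 = x := by
    intro x hx ε hε
    obtain ⟨δ, hδ, hδW⟩ := Metric.nhds_basis_closedBall.mem_iff.1 (hW.mem_nhds hx)
    refine ⟨(x, min ρ (min (δ / R) (ε / R))), ⟨?_, min_le_left _ _, ?_⟩, ?_, rfl⟩
    · exact lt_min hρ (lt_min (div_pos hδ hR) (div_pos hε hR))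
    · refine (Metric.closedBall_subset_closedBall ?_).trans hδW
      have : min ρ (min (δ / R) (ε / R)) ≤ δ / R := (min_le_right _ _).trans (min_le_left _ _)
      exact (le_div_iff₀ hR).1 this
    · have : min ρ (min (δ / R) (ε / R)) ≤ ε / R := (min_le_right _ _).trans (min_le_right _ _)
      exact (le_div_iff₀ hR).1 this
  obtain ⟨u, huT, huc, hud, hu0⟩ := Vitali.exists_disjoint_covering_ae volume W T K.toNNReal
    (fun a => a.2 * R) (fun a => a.1) B hB hμB hopen hclosed hfine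
  obtain ⟨f, hf⟩ := Set.countable_iff_exists_injOn.1 huc
  let b : ℕ → ℂ × ℝ := fun j => Function.invFunOn f u j
  have hbu : ∀ j ∈ f '' u, b j ∈ u := fun j hj => Function.invFunOn_mem hj
  have hbf : ∀ j ∈ f '' u, f (b j) = j := fun j hj => Function.invFunOn_eq hj
  refine ⟨f '' u, fun j => (b j).1 - ((b j).2 : ℂ) * y0, fun j => (b j).2, ?_, ?_, ?_⟩
  · intro j hj
    have hT := huT (hbu j hj)
    exact ⟨hT.1, hT.2.1, (hB _ hT).trans hT.2.2⟩
  · intro i hi j hj hij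
    have hne : b i ≠ b j := by
      intro h
      apply hij
      rw [← hbf i hi, ← hbf j hj, h]
    exact hud (hbu i hi) (hbu j hj) hne
  · refine measure_mono_null ?_ hu0
    rintro z ⟨hzW, hz⟩
    refine ⟨hzW, fun hz' => hz ?_⟩
    rw [Set.mem_iUnion₂] at hz' ⊢
    obtain ⟨a, ha, hza⟩ := hz'
    have hja : f a ∈ f '' u := ⟨a, ha, rfl⟩
    have hba : b (f a) = a := hf (hbu _ hja) ha (hbf _ hja)
    refine ⟨f a, hja, ?_⟩
    show z ∈ cell C ((b (f a)).1 - ((b (f a)).2 : ℂ) * y0) (b (f a)).2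
    rw [hba]
    exact hza

end Pool.Agent.H895R3.QC
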