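import Pool.Agent.H895R3.QC.T_ALG
import Pool.Agent.H895R3.QC.T_BIL
import Pool.Agent.H895R3.QC.T_CEL
import Pool.Agent.H895R3.QC.T_COV
import Pool.Agent.H895R3.QC.T_FIN
import Pool.Agent.H895R3.QC.T_GL2
import Pool.Agent.H895R3.QC.T_GLU
import Pool.Agent.H895R3.QC.T_LIM
import Pool.Agent.H895R3.QC.T_LIN
import Pool.Agent.H895R3.QC.T_MV
import Pool.Agent.H895R3.QC.T_OPN
import Pool.Agent.H895R3.QC.T_PCS
import Pool.Agent.H895R3.QC.T_PLN
import Pool.Agent.H895R3.QC.T_SCA
import Pool.Agent.H895R3.QC.T_SRJ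
import Pool.Agent.H895R3.QC.T_STP
import Pool.Agent.H895R3.QC.T_UNA
import Pool.Agent.H895R3.QC.T_UNB
import Pool.Agent.H895R3.QC.T_VIT

set_option autoImplicit false

open MeasureTheory Filter Topology Set

namespace Pool.Agent.H895R3.QC

theorem qo_open : IsOpen Qo := by
  have h : Qo = {w : ℂ | 0 < w.re} ∩ ({w | w.re < 1} ∩ ({w | 0 < w.im} ∩ {w | w.im < 1})) := by
    ext w; simp [Qo]
  rw [h]
  exact (isOpen_lt continuous_const Complex.continuous_re).inter
    ((isOpen_lt Complex.continuous_re continuous_const).inter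
      ((isOpen_lt continuous_const Complex.continuous_im).inter
        (isOpen_lt Complex.continuous_im continuous_const)))

theorem qo_fin : volume Qo ≠ ⊤ := by
  have h1 : Qo ⊆ Metric.closedBall (0 : ℂ) 2 := by
    intro w hw
    obtain ⟨h1, h2, h3, h4⟩ := hw
    rw [mem_closedBall_zero_iff]
    have := Complex.norm_le_abs_re_add_abs_im w
    rw [abs_of_pos h1, abs_of_pos h3] at this
    linarith
  exact ne_top_of_le_ne_top (measure_closedBall_lt_top).ne (measure_mono h1)

theorem main : MainC := by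
  obtain ⟨hS, hP⟩ := t_ALG t_OPN
  have hcel := t_CEL t_LIN t_BIL t_MV t_SRJ t_UNA t_UNB UU 45 100 (by norm_num) (by norm_num) hS
  have hok := hS.2.1
  have hsca : ScaC := t_SCA t_LIN
  have hglu : GluC := t_GL2 t_LIN t_GLU
  have hcov : CovC := t_COV t_VIT t_PCS
  have hstp := t_STP t_LIN hcov hglu hsca UU 45 100 P1 Qo (by norm_num) (by norm_num) hok hcel qo_open
  have hsol := t_LIM t_LIN UU 45 100 P1 Qo (by norm_num) (by norm_num) hok hP qo_open qo_fin hstp
  exact t_FIN t_LIN (t_PLN t_LIN t_VIT hglu 45 100 P1 (by norm_num) (by norm_num) (hok _ hP) hsol)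

end Pool.Agent.H895R3.QC
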