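import Mathlib
import Pool.Agent.H895R3.QC.Defs

/-!
# The set `UU` has the splitting property (helper254)
-/

set_option autoImplicit false

open MeasureTheory Filter Topology Set

namespace Pool.Agent.H895R3.QC

theorem alg_rho_mk (a b c d : ℝ) : rho (a, b, c, d) = (-b, -d, a, c) := rfl

theorem alg_rho4 (F : V) : rho (rho (rho (rho F))) = F := by
  obtain ⟨a, b, c, d⟩ := F
  simp only [alg_rho_mk, neg_neg]

theorem alg_cont : Continuous rho := by
  unfold rho
  fun_prop

theorem alg_Ok (M m : ℝ) (F : V) (h : Ok M m F) : Ok M m (rho F) := by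
  obtain ⟨a, b, c, d⟩ := F
  obtain ⟨h1, h2⟩ := h
  unfold vsq at h1
  unfold vdet at h2
  refine ⟨?_, ?_⟩
  · unfold vsq
    simp only [alg_rho_mk] at h1 ⊢
    linarith
  · unfold vdet
    simp only [alg_rho_mk] at h2 ⊢
    linarith

theorem alg_IsL (F : V) (h : IsL F) : IsL (rho F) := by
  obtain ⟨a, b, c, d⟩ := F
  unfold IsL at h ⊢
  simp only [alg_rho_mk] at h ⊢
  rcases h with ⟨h1, h2, h3, h4, h5, h6⟩ | ⟨h1, h2, h3, h4, h5, h6⟩
  · right
    refine ⟨by linarith, by linarith, by linarith, by linarith, by linarith, by linarith⟩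
  · left
    refine ⟨by linarith, by linarith, by linarith, by linarith, by linarith, by linarith⟩

theorem alg_rk (F : V) (t : ℝ) (x n : ℂ) : rho (rk F t x n) = rk (rho F) t (perp n) x := by
  obtain ⟨a, b, c, d⟩ := F
  unfold rk
  simp only [alg_rho_mk]
  unfold perp
  refine Prod.ext ?_ (Prod.ext ?_ (Prod.ext ?_ ?_))
  · simp only
    ring
  · simp only
    ring
  · simp only
    ring
  · simp only
    ring

theorem alg_UU_rho (F : V) (h : F ∈ UU) : rho F ∈ UU := by
  rcases h with h | h | h | h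
  · refine Or.inr (Or.inr (Or.inr ?_))
    rw [alg_rho4]
    exact h
  · exact Or.inl h
  · exact Or.inr (Or.inl h)
  · exact Or.inr (Or.inr (Or.inl h))

/-- the splitting property with `x ≠ 0` -/
def algSp (F : V) : Prop :=
  Ok 45 100 F ∧ ∃ (l : ℝ) (x n : ℂ), 1 / 8 ≤ l ∧ l ≤ 7 / 8 ∧ x ≠ 0 ∧ n ≠ 0 ∧
    IsL (rk F (1 - l) x n) ∧ Ok 45 100 (rk F (1 - l) x n) ∧ rk F (-l) x n ∈ UU

theorem alg_perp (n : ℂ) (h : n ≠ 0) : perp n ≠ 0 := by
  intro h0
  apply h
  have h1 := congrArg Complex.re h0
  have h2 := congrArg Complex.im h0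
  unfold perp at h1 h2
  simp only [Complex.zero_re, Complex.zero_im] at h1 h2
  apply Complex.ext
  · rw [Complex.zero_re]
    exact h2
  · rw [Complex.zero_im]
    linarith

theorem alg_Sp_rho (F : V) (h : algSp F) : algSp (rho F) := by
  obtain ⟨h0, l, x, n, h1, h2, h3, h4, h5, h6, h7⟩ := h
  refine ⟨alg_Ok _ _ _ h0, l, perp n, x, h1, h2, alg_perp n h4, h3, ?_, ?_, ?_⟩
  · rw [← alg_rk]
    exact alg_IsL _ h5
  · rw [← alg_rk]
    exact alg_Ok _ _ _ h6
  · rw [← alg_rk]
    exact alg_UU_rho _ h7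

theorem alg_base (F : V) (h : U1 F) : algSp F := by
  obtain ⟨t, p, q, r, s, ht1, ht2, hp1, hp2, hq1, hq2, hr1, hr2, hs1, hs2, hps, rfl⟩ := h
  have hp0 : p ≠ 0 := by linarith
  have hps1 : 199 / 200 * (199 / 200) ≤ p * s := by
    apply mul_le_mul hp1.le hs1.le (by norm_num) (by linarith)
  have hrqp : r * (4 * q / p) = 4 * s := by
    field_simp
    linarith
  have hpq : 3 * p * (4 * q / p) = 12 * q := by
    field_simp
    ring
  refine ⟨⟨?_, ?_⟩, t / 4, ⟨3 * p, -r⟩, ⟨8, 4 * q / p⟩, by linarith, by linarith, ?_, ?_, ?_, ?_, ?_⟩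
  · unfold vsq
    simp only
    have a1 : (p * (6 + 6 * t)) ^ 2 ≤ 19 ^ 2 := by
      apply pow_le_pow_left₀ (by positivity)
      nlinarith
    have a2 : (-(q * (12 - 3 * t))) ^ 2 ≤ 11 ^ 2 := by
      rw [neg_sq]
      apply pow_le_pow_left₀ (by nlinarith)
      nlinarith
    have a3 : (r * (8 - 2 * t)) ^ 2 ≤ 8 ^ 2 := by
      apply pow_le_pow_left₀ (by nlinarith)
      nlinarith
    have a4 : (s * (9 - t)) ^ 2 ≤ 9 ^ 2 := by
      apply pow_le_pow_left₀ (by nlinarith)
      nlinarith
    norm_num at a1 a2 a3 a4 ⊢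
    linarith
  · unfold vdet
    simp only
    have e : p * (6 + 6 * t) * (s * (9 - t)) - -(q * (12 - 3 * t)) * (r * (8 - 2 * t))
        = 150 * (p * s) + (q * r - p * s) * ((12 - 3 * t) * (8 - 2 * t)) := by ring
    rw [e, ← hps, sub_self, zero_mul, add_zero]
    norm_num at hps1
    linarith
  · intro h
    have := congrArg Complex.re h
    simp only [Complex.zero_re] at this
    linarith
  · intro h
    have := congrArg Complex.re h
    simp only [Complex.zero_re] at this
    norm_num at this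
  all_goals
    have e1 : rk (p * (6 + 6 * t), -(q * (12 - 3 * t)), r * (8 - 2 * t), s * (9 - t))
        (1 - t / 4) ⟨3 * p, -r⟩ ⟨8, 4 * q / p⟩ = (30 * p, 0, 0, 5 * s) := by
      unfold rk
      refine Prod.ext ?_ (Prod.ext ?_ (Prod.ext ?_ ?_))
      · simp only
        ring
      · simp only
        rw [hpq]
        ring
      · simp only
        ring
      · simp only
        rw [neg_mul r, hrqp]
        ring
    have e2 : rk (p * (6 + 6 * t), -(q * (12 - 3 * t)), r * (8 - 2 * t), s * (9 - t))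
        (-(t / 4)) ⟨3 * p, -r⟩ ⟨8, 4 * q / p⟩ = (6 * p, -(12 * q), 8 * r, 9 * s) := by
      unfold rk
      refine Prod.ext ?_ (Prod.ext ?_ (Prod.ext ?_ ?_))
      · simp only
        ring
      · simp only
        rw [hpq]
        ring
      · simp only
        ring
      · simp only
        rw [neg_mul r, hrqp]
        ring
  · rw [e1]
    left
    simp only
    refine ⟨trivial, trivial, by linarith, by linarith, ?_, ?_⟩
    · norm_num
      linarith
    · norm_num
      linarith
  · rw [e1]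
    refine ⟨?_, ?_⟩
    · unfold vsq
      simp only
      have a1 : (30 * p) ^ 2 ≤ 31 ^ 2 := by
        apply pow_le_pow_left₀ (by linarith)
        linarith
      have a4 : (5 * s) ^ 2 ≤ 6 ^ 2 := by
        apply pow_le_pow_left₀ (by linarith)
        linarith
      norm_num at a1 a4 ⊢
      linarith
    · unfold vdet
      simp only
      norm_num at hps1
      have e : 30 * p * (5 * s) - 0 * 0 = 150 * (p * s) := by ring
      rw [e]
      linarith
  · rw [e2]
    refine Or.inr (Or.inl ?_)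
    refine ⟨1, q, s, p, r, by norm_num, by norm_num, hq1, hq2, hs1, hs2, hp1, hp2, hr1, hr2,
      by linarith, ?_⟩
    rw [alg_rho_mk]
    refine Prod.ext ?_ (Prod.ext ?_ (Prod.ext ?_ ?_))
    · simp only
      ring
    · simp only
      ring
    · simp only
      ring
    · simp only
      ring

theorem alg_all (F : V) (h : F ∈ UU) : algSp F := by
  rcases h with h | h | h | h
  · exact alg_base F h
  · have h1 := alg_Sp_rho _ (alg_Sp_rho _ (alg_Sp_rho _ (alg_base _ h)))
    rwa [alg_rho4] at h1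
  · have h1 := alg_Sp_rho _ (alg_Sp_rho _ (alg_base _ h))
    rwa [alg_rho4] at h1
  · have h1 := alg_Sp_rho _ (alg_base _ h)
    rwa [alg_rho4] at h1

theorem t_ALG : S_ALG := by
  intro hO
  unfold S_OPN at hO
  refine ⟨⟨?_, fun F hF => (alg_all F hF).1, fun F hF => ?_⟩, ?_⟩
  · have e : UU = {F : V | U1 F} ∪ (rho ⁻¹' {F : V | U1 F} ∪
        ((fun F => rho (rho F)) ⁻¹' {F : V | U1 F} ∪
          (fun F => rho (rho (rho F))) ⁻¹' {F : V | U1 F})) := rfl
    rw [e]
    refine hO.union ((hO.preimage alg_cont).union ((hO.preimage ?_).union (hO.preimage ?_)))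
    · exact alg_cont.comp alg_cont
    · exact alg_cont.comp (alg_cont.comp alg_cont)
  · obtain ⟨_, l, x, n, h1, h2, _, h4, h5, h6, h7⟩ := alg_all F hF
    exact ⟨l, x, n, h1, h2, h4, h5, h6, h7⟩
  · refine Or.inr (Or.inl ?_)
    refine ⟨1, 1, 1, 1, 1, by norm_num, by norm_num, by norm_num, by norm_num, by norm_num,
      by norm_num, by norm_num, by norm_num, by norm_num, by norm_num, by norm_num, ?_⟩
    unfold P1
    rw [alg_rho_mk]
    norm_num

end Pool.Agent.H895R3.QC
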