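import Mathlib
import Pool.Agent.H895R3.QC.Defs

set_option autoImplicit false

open MeasureTheory Filter Topology Set

namespace Pool.Agent.H895R3.QC

theorem srj_roof_nonneg (l u v : ℝ) : 0 ≤ roof l u v := le_max_left _ _

theorem srj_roof_le (l u v : ℝ) (h0 : 0 ≤ l) (h1 : l ≤ 1) : roof l u v ≤ 1 := by
  unfold roof
  refine max_le zero_le_one ?_
  refine (min_le_left _ _).trans ?_
  by_cases hu : u ≤ 1
  · refine (min_le_left _ _).trans ?_
    nlinarith
  · push Not at hu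
    refine (min_le_right _ _).trans ?_
    nlinarith

theorem srj_cont (n c : ℂ) (e l : ℝ) (z0 b : ℂ) :
    Continuous (fun t : ℝ => roof l (dot n (z0 - (t : ℂ) * b))
      (e * dot c (z0 - (t : ℂ) * b))) := by
  unfold roof dot
  fun_prop

theorem t_SRJ : S_SRJ := by
  intro hL F x n e l hl0 hl1 hF y
  obtain ⟨-, -, hsub, hsm, -, -, hbij, -⟩ := hL
  obtain ⟨z0, hz0⟩ := (hbij F hF).2 y
  obtain ⟨b, hb⟩ := (hbij F hF).2 x
  have hcont := srj_cont n (perp n) e l z0 b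
  have hivt : (0 : ℝ) ∈ (fun t : ℝ => t - roof l (dot n (z0 - (t : ℂ) * b))
      (e * dot (perp n) (z0 - (t : ℂ) * b))) '' Icc (0 : ℝ) 1 := by
    have hc2 : Continuous (fun t : ℝ => t - roof l (dot n (z0 - (t : ℂ) * b))
      (e * dot (perp n) (z0 - (t : ℂ) * b))) := continuous_id.sub hcont
    refine intermediate_value_Icc zero_le_one hc2.continuousOn ⟨?_, ?_⟩
    · show (0 : ℝ) - roof l (dot n (z0 - ((0 : ℝ) : ℂ) * b))
        (e * dot (perp n) (z0 - ((0 : ℝ) : ℂ) * b)) ≤ 0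
      have := srj_roof_nonneg l (dot n (z0 - ((0 : ℝ) : ℂ) * b))
        (e * dot (perp n) (z0 - ((0 : ℝ) : ℂ) * b))
      linarith
    · show (0 : ℝ) ≤ 1 - roof l (dot n (z0 - ((1 : ℝ) : ℂ) * b))
        (e * dot (perp n) (z0 - ((1 : ℝ) : ℂ) * b))
      have := srj_roof_le l (dot n (z0 - ((1 : ℝ) : ℂ) * b))
        (e * dot (perp n) (z0 - ((1 : ℝ) : ℂ) * b)) hl0 hl1
      linarith
  obtain ⟨t, -, ht⟩ := hivt
  simp only at ht
  have ht' : roof l (dot n (z0 - (t : ℂ) * b)) (e * dot (perp n) (z0 - (t : ℂ) * b)) = t := by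
    linarith
  refine ⟨z0 - (t : ℂ) * b, ?_⟩
  unfold psi
  rw [ht', hsub, hsm, hz0, hb]
  ring

end Pool.Agent.H895R3.QC
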